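import Pool.Agent.Work.MP_2b8540_co.Structure

/-! the graph of chosen representations -/

open Finset

namespace EM

variable {N : ℕ}

/-- the sets which are unions of two members of `G` -/
noncomputable def Cov (G : Finset (Finset (Fin N))) : Finset (Finset (Fin N)) :=
  open Classical in
  (Finset.univ : Finset (Finset (Fin N))).filter fun S => ∃ a ∈ G, ∃ b ∈ G, a ∪ b = S

/-- the pair `a, b` looks on the test set `X` like a pair of independent random sets of density
`1 - q`, up to `δ N` -/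
def RT (δ : ℝ) (X a b : Finset (Fin N)) : Prop :=
  |((a ∩ X).card : ℝ) - (1 - q) * X.card| ≤ δ * N ∧
  |((b ∩ X).card : ℝ) - (1 - q) * X.card| ≤ δ * N ∧
  |((a ∩ b ∩ X).card : ℝ) - (1 - q) ^ 2 * X.card| ≤ δ * N

/-- the sets which are unions of two members of `A` and all of whose representations in `G` are
random-like on all test sets -/
noncomputable def goodSets (G A 𝒳 : Finset (Finset (Fin N))) (δ : ℝ) :
    Finset (Finset (Fin N)) :=
  open Classical in
  (Finset.univ : Finset (Finset (Fin N))).filter fun S =>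
    (∃ a ∈ A, ∃ b ∈ A, a ∪ b = S) ∧ ∀ a ∈ G, ∀ b ∈ G, a ∪ b = S → ∀ X ∈ 𝒳, RT δ X a b

/-- sets unbalanced on some test set -/
noncomputable def unb (𝒳 : Finset (Finset (Fin N))) (δ : ℝ) : Finset (Finset (Fin N)) :=
  open Classical in
  (Finset.univ : Finset (Finset (Fin N))).filter fun S =>
    ∃ X ∈ 𝒳, δ * N < |((S ∩ X).card : ℝ) - X.card / 2|

lemma unb_card (𝒳 : Finset (Finset (Fin N))) {δ : ℝ} (hδ : 0 < δ) (hN : 0 < N) :
    ((unb 𝒳 δ).card : ℝ) ≤ 𝒳.card * (2 ^ N / (4 * δ ^ 2 * N)) := by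
  classical
  have hsub : unb 𝒳 δ ⊆ 𝒳.biUnion fun X => (Finset.univ : Finset (Finset (Fin N))).filter
      fun S => δ * N < |((S ∩ X).card : ℝ) - X.card / 2| := by
    intro S hS
    unfold unb at hS
    rw [Finset.mem_filter] at hS
    obtain ⟨_, X, hX, h⟩ := hS
    rw [Finset.mem_biUnion]
    exact ⟨X, hX, Finset.mem_filter.mpr ⟨Finset.mem_univ _, h⟩⟩
  have h1 : ((unb 𝒳 δ).card : ℝ) ≤ ∑ X ∈ 𝒳, (((Finset.univ : Finset (Finset (Fin N))).filter
      fun S => δ * N < |((S ∩ X).card : ℝ) - X.card / 2|).card : ℝ) := by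
    exact_mod_cast (Finset.card_le_card hsub).trans Finset.card_biUnion_le
  refine h1.trans ?_
  calc ∑ X ∈ 𝒳, (((Finset.univ : Finset (Finset (Fin N))).filter
      fun S => δ * N < |((S ∩ X).card : ℝ) - X.card / 2|).card : ℝ)
      ≤ ∑ _X ∈ 𝒳, (2 ^ N / (4 * δ ^ 2 * N) : ℝ) :=
        Finset.sum_le_sum fun X _ => cheb X hδ hN
    _ = 𝒳.card * (2 ^ N / (4 * δ ^ 2 * N)) := by rw [Finset.sum_const, nsmul_eq_mul]

lemma rt_of_typ {δ : ℝ} {X a b : Finset (Fin N)}
    (ha : |((a ∩ X).card : ℝ) - (1 - q) * X.card| ≤ δ * N)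
    (hb : |((b ∩ X).card : ℝ) - (1 - q) * X.card| ≤ δ * N)
    (hS : |(((a ∪ b) ∩ X).card : ℝ) - X.card / 2| ≤ δ * N) : RT (3 * δ) X a b := by
  have hδN : 0 ≤ δ * N := (abs_nonneg _).trans ha
  have h1 : ((a ∩ b ∩ X).card : ℝ) = (a ∩ X).card + (b ∩ X).card - ((a ∪ b) ∩ X).card := by
    have h2 := Finset.card_union_add_card_inter (a ∩ X) (b ∩ X)
    have e1 : (a ∩ X) ∪ (b ∩ X) = (a ∪ b) ∩ X := by rw [Finset.union_inter_distrib_right]
    have e2 : (a ∩ X) ∩ (b ∩ X) = a ∩ b ∩ X := by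
      ext i; simp only [Finset.mem_inter]; tauto
    rw [e1, e2] at h2
    have h3 : (((a ∪ b) ∩ X).card : ℝ) + (a ∩ b ∩ X).card = (a ∩ X).card + (b ∩ X).card := by
      exact_mod_cast h2
    linarith
  have hq : (1 - q) ^ 2 = 2 * (1 - q) - 1 / 2 := by
    have := q_sq
    nlinarith
  refine ⟨?_, ?_, ?_⟩
  · have : 3 * δ * N = 3 * (δ * N) := by ring
    rw [this]; linarith
  · have : 3 * δ * N = 3 * (δ * N) := by ring
    rw [this]; linarith
  · rw [h1, hq]
    have e : ((a ∩ X).card : ℝ) + (b ∩ X).card - ((a ∪ b) ∩ X).card -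
        (2 * (1 - q) - 1 / 2) * X.card = (((a ∩ X).card : ℝ) - (1 - q) * X.card) +
        (((b ∩ X).card : ℝ) - (1 - q) * X.card) - ((((a ∪ b) ∩ X).card : ℝ) - X.card / 2) := by
      ring
    rw [e]
    refine (abs_sub _ _).trans ?_
    have h4 := abs_add_le (((a ∩ X).card : ℝ) - (1 - q) * X.card)
      (((b ∩ X).card : ℝ) - (1 - q) * X.card)
    have : 3 * δ * N = 3 * (δ * N) := by ring
    rw [this]; linarith

theorem choice_thm (G 𝒳 : Finset (Finset (Fin N))) (δ : ℝ) :
    ∃ H : SimpleGraph ↥G, UU H (fun x : ↥G => (x : Finset (Fin N))) ∧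
      (open Classical in
      ((Cov G).card : ℝ) ≤ G.card +
        ((Finset.univ.filter fun p : ↥G × ↥G => H.Adj p.1 p.2).card : ℝ) / 2) ∧
      ∀ A : Finset ↥G, (∀ a ∈ A, ∀ X ∈ 𝒳, Typ (fun x : ↥G => (x : Finset (Fin N))) δ X a) →
        (open Classical in
        ((Finset.univ.filter fun p : ↥G × ↥G => p.1 ∈ A ∧ p.2 ∈ A ∧ H.Adj p.1 p.2).card : ℝ) / 2 ≤
          ((goodSets G (A.image Subtype.val) 𝒳 (3 * δ)).card : ℝ) + (unb 𝒳 δ).card) := by
  classical
  -- the choice of representations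
  have hch : ∀ S : Finset (Fin N), ∃ p : Finset (Fin N) × Finset (Fin N),
      S ∈ Cov G → (p.1 ∈ G ∧ p.2 ∈ G ∧ p.1 ∪ p.2 = S ∧
        ((∃ a ∈ G, ∃ b ∈ G, a ∪ b = S ∧ ∃ X ∈ 𝒳, ¬ RT (3 * δ) X a b) →
          ∃ X ∈ 𝒳, ¬ RT (3 * δ) X p.1 p.2)) := by
    intro S
    by_cases hbad : ∃ a ∈ G, ∃ b ∈ G, a ∪ b = S ∧ ∃ X ∈ 𝒳, ¬ RT (3 * δ) X a b
    · obtain ⟨a, ha, b, hb, hab, h⟩ := hbad
      exact ⟨(a, b), fun _ => ⟨ha, hb, hab, fun _ => h⟩⟩
    · by_cases hS : S ∈ Cov G
      · have hS' := hS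
        unfold Cov at hS'
        obtain ⟨_, a, ha, b, hb, hab⟩ := Finset.mem_filter.mp hS'
        exact ⟨(a, b), fun _ => ⟨ha, hb, hab, fun h => absurd h hbad⟩⟩
      · exact ⟨(∅, ∅), fun h => absurd h hS⟩
  choose f hf using hch
  set H : SimpleGraph ↥G :=
    { Adj := fun x y => x ≠ y ∧ (f ((x : Finset (Fin N)) ∪ y) = ((x : Finset (Fin N)), (y : Finset (Fin N))) ∨
        f ((x : Finset (Fin N)) ∪ y) = ((y : Finset (Fin N)), (x : Finset (Fin N))))
      symm := ⟨fun x y h => by
        refine ⟨h.1.symm, ?_⟩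
        rw [Finset.union_comm]
        exact h.2.symm⟩
      loopless := ⟨fun x h => h.1 rfl⟩ } with hH
  have hcov : ∀ x y : ↥G, (x : Finset (Fin N)) ∪ y ∈ Cov G := by
    intro x y
    unfold Cov
    exact Finset.mem_filter.mpr ⟨Finset.mem_univ _, x, x.2, y, y.2, rfl⟩
  refine ⟨H, ?_, ?_, ?_⟩
  · -- unique unions
    rintro a b a' b' ⟨_, h1⟩ ⟨_, h2⟩ he
    simp only at he
    rw [← he] at h2
    rcases h1 with h1 | h1 <;> rcases h2 with h2 | h2 <;> rw [h1] at h2 <;>
      simp only [Prod.mk.injEq] at h2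
    · exact Or.inl ⟨Subtype.ext h2.1, Subtype.ext h2.2⟩
    · exact Or.inr ⟨Subtype.ext h2.1, Subtype.ext h2.2⟩
    · exact Or.inr ⟨Subtype.ext h2.2, Subtype.ext h2.1⟩
    · exact Or.inl ⟨Subtype.ext h2.2, Subtype.ext h2.1⟩
  · -- counting all covered sets
    set C1 := (Cov G).filter fun S => (f S).1 = (f S).2 with hC1
    set C2 := (Cov G).filter fun S => ¬ (f S).1 = (f S).2 with hC2
    have hsplit : C1.card + C2.card = (Cov G).card := Finset.card_filter_add_card_filter_not _
    have h1 : C1.card ≤ G.card := by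
      refine Finset.card_le_card fun S hS => ?_
      obtain ⟨hS1, hS2⟩ := Finset.mem_filter.mp hS
      obtain ⟨h3, h4, h5, _⟩ := hf S hS1
      rw [← hS2, Finset.union_self] at h5
      rw [← h5]; exact h3
    set E := (Finset.univ.filter fun p : ↥G × ↥G => H.Adj p.1 p.2) with hE
    have h2 : 2 * C2.card ≤ E.card := by
      -- two injections with disjoint images
      set I1 := E.filter fun p => f ((p.1 : Finset (Fin N)) ∪ p.2) = ((p.1 : Finset (Fin N)), (p.2 : Finset (Fin N))) with hI1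
      set I2 := E.filter fun p => ¬ f ((p.1 : Finset (Fin N)) ∪ p.2) = ((p.1 : Finset (Fin N)), (p.2 : Finset (Fin N))) with hI2
      have hs : I1.card + I2.card = E.card := Finset.card_filter_add_card_filter_not _
      have ha : C2.card ≤ I1.card := by
        refine Finset.card_le_card_of_surjOn (fun p => (p.1 : Finset (Fin N)) ∪ p.2) ?_
        intro S hS
        rw [Finset.mem_coe] at hS
        obtain ⟨hS1, hS2⟩ := Finset.mem_filter.mp hS
        obtain ⟨h3, h4, h5, _⟩ := hf S hS1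
        refine ⟨(⟨(f S).1, h3⟩, ⟨(f S).2, h4⟩), ?_, h5⟩
        rw [Finset.mem_coe, hI1, Finset.mem_filter, hE, Finset.mem_filter]
        simp only
        refine ⟨⟨Finset.mem_univ _, ?_, ?_⟩, ?_⟩
        · intro h; exact hS2 (congrArg Subtype.val h)
        · left
          simp only
          rw [h5]
        · rw [h5]
      have hb : C2.card ≤ I2.card := by
        refine Finset.card_le_card_of_surjOn (fun p => (p.1 : Finset (Fin N)) ∪ p.2) ?_
        intro S hS
        rw [Finset.mem_coe] at hS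
        obtain ⟨hS1, hS2⟩ := Finset.mem_filter.mp hS
        obtain ⟨h3, h4, h5, _⟩ := hf S hS1
        have h5' : (f S).2 ∪ (f S).1 = S := by rw [Finset.union_comm]; exact h5
        refine ⟨(⟨(f S).2, h4⟩, ⟨(f S).1, h3⟩), ?_, h5'⟩
        rw [Finset.mem_coe, hI2, Finset.mem_filter, hE, Finset.mem_filter]
        simp only
        refine ⟨⟨Finset.mem_univ _, ?_, ?_⟩, ?_⟩
        · intro h; exact hS2 (congrArg Subtype.val h).symm
        · right
          simp only
          rw [h5']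
        · rw [h5']
          intro h
          have := congrArg Prod.fst h
          exact hS2 this
      omega
    have h3 : (2 : ℝ) * C2.card ≤ E.card := by exact_mod_cast h2
    have h4 : (C1.card : ℝ) ≤ G.card := by exact_mod_cast h1
    have h5 : ((Cov G).card : ℝ) = C1.card + C2.card := by exact_mod_cast hsplit.symm
    have h6 : ((Cov G).card : ℝ) ≤ G.card + (E.card : ℝ) / 2 := by rw [h5]; linarith
    convert h6
  · intro A hA
    set E := (Finset.univ.filter fun p : ↥G × ↥G => p.1 ∈ A ∧ p.2 ∈ A ∧ H.Adj p.1 p.2) with hE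
    set T := goodSets G (A.image Subtype.val) 𝒳 (3 * δ) ∪ unb 𝒳 δ with hT
    -- every edge inside A has its union in T
    have hET : ∀ p ∈ E, (p.1 : Finset (Fin N)) ∪ p.2 ∈ T := by
      intro p hp
      obtain ⟨_, hp1, hp2, hadj⟩ := Finset.mem_filter.mp hp
      rw [hT, Finset.mem_union]
      by_cases hu : (p.1 : Finset (Fin N)) ∪ p.2 ∈ unb 𝒳 δ
      · right; exact hu
      · left
        unfold goodSets
        rw [Finset.mem_filter]
        refine ⟨Finset.mem_univ _, ⟨p.1, Finset.mem_image_of_mem _ hp1, p.2,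
          Finset.mem_image_of_mem _ hp2, rfl⟩, ?_⟩
        -- the pair itself is RT
        have hbal : ∀ X ∈ 𝒳, |((((p.1 : Finset (Fin N)) ∪ p.2) ∩ X).card : ℝ) - X.card / 2| ≤
            δ * N := by
          intro X hX
          by_contra hcon
          rw [not_le] at hcon
          exact hu (by unfold unb; exact Finset.mem_filter.mpr ⟨Finset.mem_univ _, X, hX, hcon⟩)
        have hself : ∀ X ∈ 𝒳, RT (3 * δ) X (p.1 : Finset (Fin N)) p.2 := by
          intro X hX
          exact rt_of_typ (hA p.1 hp1 X hX) (hA p.2 hp2 X hX) (hbal X hX)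
        have hself' : ∀ X ∈ 𝒳, RT (3 * δ) X (p.2 : Finset (Fin N)) p.1 := by
          intro X hX
          refine rt_of_typ (hA p.2 hp2 X hX) (hA p.1 hp1 X hX) ?_
          rw [Finset.union_comm]
          exact hbal X hX
        intro a ha b hb hab X hX
        by_contra hcon
        obtain ⟨_, _, _, h6⟩ := hf _ (hcov p.1 p.2)
        obtain ⟨Y, hY, hYn⟩ := h6 ⟨a, ha, b, hb, hab, X, hX, hcon⟩
        rcases hadj.2 with h | h
        · rw [h] at hYn; exact hYn (hself Y hY)
        · rw [h] at hYn; exact hYn (hself' Y hY)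
    have hcard : E.card ≤ 2 * T.card := by
      have hle := Finset.card_le_mul_card_image (f := fun p : ↥G × ↥G => (p.1 : Finset (Fin N)) ∪ p.2)
        E 2 (by
          intro S hS
          obtain ⟨p, hp, rfl⟩ := Finset.mem_image.mp hS
          obtain ⟨_, _, _, hadj⟩ := Finset.mem_filter.mp hp
          have hsub : (E.filter fun x => (x.1 : Finset (Fin N)) ∪ x.2 = (p.1 : Finset (Fin N)) ∪ p.2) ⊆
              {p, (p.2, p.1)} := by
            intro x hx
            obtain ⟨hx1, hx2⟩ := Finset.mem_filter.mp hx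
            obtain ⟨_, _, _, hadjx⟩ := Finset.mem_filter.mp hx1
            obtain ⟨_, h1⟩ := hadj
            obtain ⟨_, h2⟩ := hadjx
            rw [hx2] at h2
            rw [Finset.mem_insert, Finset.mem_singleton]
            rcases h1 with h1 | h1 <;> rcases h2 with h2 | h2 <;> rw [h1] at h2 <;>
              simp only [Prod.mk.injEq] at h2
            · left; exact Prod.ext (Subtype.ext h2.1.symm) (Subtype.ext h2.2.symm)
            · right; exact Prod.ext (Subtype.ext h2.2.symm) (Subtype.ext h2.1.symm)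
            · right; exact Prod.ext (Subtype.ext h2.1.symm) (Subtype.ext h2.2.symm)
            · left; exact Prod.ext (Subtype.ext h2.2.symm) (Subtype.ext h2.1.symm)
          exact (Finset.card_le_card hsub).trans Finset.card_le_two)
      refine hle.trans (Nat.mul_le_mul_left 2 (Finset.card_le_card ?_))
      intro S hS
      obtain ⟨p, hp, rfl⟩ := Finset.mem_image.mp hS
      exact hET p hp
    have hTc : T.card ≤ (goodSets G (A.image Subtype.val) 𝒳 (3 * δ)).card + (unb 𝒳 δ).card :=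
      Finset.card_union_le _ _
    have h1 : (E.card : ℝ) ≤ 2 * T.card := by exact_mod_cast hcard
    have h2 : (T.card : ℝ) ≤ (goodSets G (A.image Subtype.val) 𝒳 (3 * δ)).card + (unb 𝒳 δ).card := by
      exact_mod_cast hTc
    have h3 : (E.card : ℝ) / 2 ≤
        ((goodSets G (A.image Subtype.val) 𝒳 (3 * δ)).card : ℝ) + (unb 𝒳 δ).card := by linarith
    convert h3

end EM
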