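import Pool.Agent.Work.MP_2b8540_co.Fixed

/-! the asymptotic structure theorem -/

open Finset Filter

namespace EM

lemma cov_card_le {N : ℕ} (G : Finset (Finset (Fin N))) :
    2 * (Cov G).card ≤ G.card * (G.card + 1) := by
  classical
  have hsub : Cov G ⊆ (Finset.univ.filter fun _ => True : Finset (Sym2 ↥G)).image
      (Sym2.lift ⟨fun a b : ↥G => (a : Finset (Fin N)) ∪ b, fun a b => Finset.union_comm _ _⟩) := by
    intro S hS
    unfold Cov at hS
    obtain ⟨_, a, ha, b, hb, hab⟩ := Finset.mem_filter.mp hS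
    rw [Finset.mem_image]
    exact ⟨s(⟨a, ha⟩, ⟨b, hb⟩), by simp, by simpa using hab⟩
  have h1 := (Finset.card_le_card hsub).trans Finset.card_image_le
  rw [Finset.filter_true, Finset.card_univ, Sym2.card, Fintype.card_coe] at h1
  have h2 : 2 * (G.card + 1).choose 2 = (G.card + 1) * G.card := by
    rw [Nat.choose_two_right]
    have := Nat.even_mul_pred_self (G.card + 1)
    rw [Nat.add_sub_cancel] at this ⊢
    exact Nat.two_mul_div_two_of_even this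
  calc 2 * (Cov G).card ≤ 2 * (G.card + 1).choose 2 := Nat.mul_le_mul_left 2 h1
    _ = G.card * (G.card + 1) := by rw [h2]; ring

theorem core {c δ η : ℝ} (hc : 0 < c) (hδ : 0 < δ) (hη : 0 < η) (r : ℕ) :
    ∃ γ : ℝ, 0 < γ ∧ ∃ n₀ : ℕ, ∀ n ≥ n₀, ∀ G : Finset (Finset (Fin (2 * n))),
      (G.card : ℝ) ≤ c * 2 ^ n → (1 - γ) * 4 ^ n ≤ ((Cov G).card : ℝ) →
      ∀ 𝒳 : Finset (Finset (Fin (2 * n))), 𝒳.card ≤ r →
      ∃ A ⊆ G, (∀ a ∈ A, ∀ X ∈ 𝒳,
          |((a ∩ X).card : ℝ) - (1 - q) * X.card| ≤ δ * ((2 * n : ℕ) : ℝ)) ∧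
        (1 - η - (c - A.card / 2 ^ n) ^ 2 / 4) * 4 ^ n ≤ ((goodSets G A 𝒳 δ).card : ℝ) := by
  classical
  -- the parameters
  set s : ℝ := min 1 (η / (16 * (c ^ 2 + 1))) with hs
  have hs0 : 0 < s := by
    rw [hs]; exact lt_min one_pos (by positivity)
  have hs1 : s ≤ 1 := min_le_left _ _
  have hsη : s * (16 * (c ^ 2 + 1)) ≤ η := by
    have : s ≤ η / (16 * (c ^ 2 + 1)) := min_le_right _ _
    rwa [le_div_iff₀ (by positivity)] at this
  set δ' : ℝ := δ / 3 with hδ'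
  have hδ'0 : 0 < δ' := by positivity
  set τ : ℝ := s / (r + 1) with hτ
  have hτ0 : 0 < τ := by positivity
  have hτ1 : τ ≤ 1 := by
    rw [hτ, div_le_one (by positivity)]
    have : (0 : ℝ) ≤ r := Nat.cast_nonneg r
    linarith
  have hτr : τ * r ≤ s := by
    rw [hτ, div_mul_eq_mul_div, div_le_iff₀ (by positivity)]
    have : s * ((r : ℝ) + 1) = s * r + s := by ring
    linarith
  set κ : ℝ := s / 4 with hκ
  have hκ0 : 0 < κ := by positivity
  have hκ1 : κ ≤ 1 := by rw [hκ]; linarith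
  obtain ⟨L, hL⟩ := exists_nat_ge (2 / s + 1)
  have hL1 : 1 ≤ L := by
    have : (1 : ℝ) ≤ L := by
      have : 0 < 2 / s := by positivity
      linarith
    exact_mod_cast this
  have hLs : 2 / (L : ℝ) ≤ s := by
    have h1 : 2 / s ≤ L := by linarith
    have hLr : (0 : ℝ) < L := by exact_mod_cast hL1
    rw [div_le_iff₀ hs0] at h1
    rw [div_le_iff₀ hLr]
    linarith
  set θ : ℝ := δ' / (3 * 3 ^ (L + 2)) with hθ
  have hθ0 : 0 < θ := by positivity
  set ε : ℝ := min (min τ (κ / 2)) (min (s / 4) (θ * τ * κ / 8)) with hε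
  have hε0 : 0 < ε := by
    rw [hε]
    refine lt_min (lt_min hτ0 (by positivity)) (lt_min (by positivity) (by positivity))
  have hετ : ε ≤ τ := (min_le_left _ _).trans (min_le_left _ _)
  have hεκ : ε ≤ κ / 2 := (min_le_left _ _).trans (min_le_right _ _)
  have hεs : ε ≤ s / 4 := (min_le_right _ _).trans (min_le_left _ _)
  have hεθ : ε ≤ θ * τ * κ / 8 := (min_le_right _ _).trans (min_le_right _ _)
  set ε₁ : ℝ := 2 * s with hε₁
  have hε₁0 : 0 < ε₁ := by positivity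
  set l : ℕ := ⌈4 / ε₁⌉₊ with hl
  set K : ℕ := SzemerediRegularity.bound ε l with hK
  have hKpos : (0 : ℝ) < K := by
    have := SzemerediRegularity.bound_pos (ε := ε) (l := l)
    exact_mod_cast this
  set κ₀ : ℝ := (κ / 2) * (τ ^ 2 * (1 / (2 * K)) ^ 2) with hκ₀
  have hκ₀0 : 0 < κ₀ := by positivity
  set γ : ℝ := min (η / 8) (1 / 4) with hγ
  have hγ0 : 0 < γ := lt_min (by positivity) (by norm_num)
  refine ⟨γ, hγ0, ?_⟩
  -- largeness
  obtain ⟨n1, hn1⟩ := exists_nat_ge (1 / (κ₀ * θ ^ 2) + 1)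
  have htend : Tendsto (fun n : ℕ => (2 : ℝ) ^ n) atTop atTop :=
    tendsto_pow_atTop_atTop_of_one_lt (by norm_num)
  obtain ⟨n2, hn2⟩ := (htend.eventually_ge_atTop (max (l : ℝ) (8 * c / η))).exists_forall_of_atTop
  obtain ⟨n3, hn3⟩ := exists_nat_ge (r / (4 * δ' ^ 2) / (η / 8) + 1)
  refine ⟨max (max n1 n2) (max n3 1), ?_⟩
  intro n hn G hGc hGcov 𝒳 h𝒳
  have hnn1 : n1 ≤ n := le_trans (le_trans (le_max_left _ _) (le_max_left _ _)) hn
  have hnn2 : n2 ≤ n := le_trans (le_trans (le_max_right _ _) (le_max_left _ _)) hn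
  have hnn3 : n3 ≤ n := le_trans (le_trans (le_max_left _ _) (le_max_right _ _)) hn
  have hnpos : 1 ≤ n := le_trans (le_trans (le_max_right _ _) (le_max_right _ _)) hn
  have hnr : (1 : ℝ) ≤ n := by exact_mod_cast hnpos
  have h2n := hn2 n hnn2
  have hl2 : (l : ℝ) ≤ 2 ^ n := (le_max_left _ _).trans h2n
  have hc2 : 8 * c / η ≤ 2 ^ n := (le_max_right _ _).trans h2n
  have hpow : (2 : ℝ) ^ (2 * n) = 4 ^ n := by
    rw [pow_mul]; norm_num
  have h4 : (4 : ℝ) ^ n = 2 ^ n * 2 ^ n := by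
    rw [← mul_pow]; norm_num
  have h2pos : (0 : ℝ) < 2 ^ n := by positivity
  have h4pos : (0 : ℝ) < 4 ^ n := by positivity
  set m : ℝ := (G.card : ℝ) with hm
  have hm0 : 0 ≤ m := Nat.cast_nonneg _
  -- `m ≥ 2^n`
  have hmbig : (2 : ℝ) ^ n ≤ m := by
    by_contra hcon
    rw [not_le] at hcon
    have h1 : G.card + 1 ≤ 2 ^ n := by
      have : (G.card : ℝ) < ((2 ^ n : ℕ) : ℝ) := by push_cast; exact hcon
      exact_mod_cast this
    have h2 : m + 1 ≤ 2 ^ n := by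
      have : ((G.card + 1 : ℕ) : ℝ) ≤ ((2 ^ n : ℕ) : ℝ) := by exact_mod_cast h1
      push_cast at this; exact this
    have h3 : 2 * ((Cov G).card : ℝ) ≤ m * (m + 1) := by
      have := cov_card_le G
      have : ((2 * (Cov G).card : ℕ) : ℝ) ≤ ((G.card * (G.card + 1) : ℕ) : ℝ) := by exact_mod_cast this
      push_cast at this; exact this
    have h5 : m * (m + 1) ≤ 4 ^ n := by
      rw [h4]; exact mul_le_mul hcon.le h2 (by linarith) h2pos.le
    have hγ4 : γ ≤ 1 / 4 := min_le_right _ _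
    have h6 : (1 - 1 / 4) * (4 : ℝ) ^ n ≤ (1 - γ) * 4 ^ n :=
      mul_le_mul_of_nonneg_right (by linarith) h4pos.le
    linarith
  have hGpos : 0 < G.card := by
    have : (0 : ℝ) < G.card := lt_of_lt_of_le h2pos hmbig
    exact_mod_cast this
  have hlG : l ≤ G.card := by
    have : (l : ℝ) ≤ G.card := hl2.trans hmbig
    exact_mod_cast this
  -- `θ` condition
  have hNr : ((2 * n : ℕ) : ℝ) = 2 * n := by push_cast; ring
  have hθcond : (4 * ε / (τ * κ)) * ((2 * n : ℕ) : ℝ) + 1 / 2 * √(((2 * n : ℕ) : ℝ) / κ₀) ≤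
      θ * ((2 * n : ℕ) : ℝ) := by
    set x : ℝ := ((2 * n : ℕ) : ℝ) with hx
    have hx0 : 0 < x := by rw [hNr]; linarith
    have h1 : 4 * ε / (τ * κ) ≤ θ / 2 := by
      rw [div_le_iff₀ (by positivity)]
      have e : θ / 2 * (τ * κ) = 4 * (θ * τ * κ / 8) := by ring
      rw [e]
      linarith
    have h2 : √(x / κ₀) ≤ θ * x := by
      rw [Real.sqrt_le_left (by positivity)]
      have h3 : 1 / (κ₀ * θ ^ 2) ≤ x := by
        have : (n1 : ℝ) ≤ n := by exact_mod_cast hnn1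
        rw [hNr]
        linarith
      rw [div_le_iff₀ (by positivity)] at h3
      rw [div_le_iff₀ hκ₀0]
      have h6 : x * 1 ≤ x * (x * (κ₀ * θ ^ 2)) := mul_le_mul_of_nonneg_left h3 hx0.le
      have e : (θ * x) ^ 2 * κ₀ = x * (x * (κ₀ * θ ^ 2)) := by ring
      rw [e]
      linarith
    have h3 : (4 * ε / (τ * κ)) * x ≤ θ / 2 * x := mul_le_mul_of_nonneg_right h1 hx0.le
    linarith
  have hδcond : 3 * (3 ^ (L + 2) * θ) ≤ δ' := by
    rw [hθ]
    apply le_of_eq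
    field_simp
  have hbig : κ₀ * 2 ^ (2 * n) ≤ (κ / 2) * (τ ^ 2 *
      (m / (2 * SzemerediRegularity.bound ε l)) ^ 2) := by
    rw [hpow, h4, hκ₀]
    have h1 : (1 / (2 * (K : ℝ))) ^ 2 * (2 ^ n * 2 ^ n) ≤ (m / (2 * K)) ^ 2 := by
      have e : (1 / (2 * (K : ℝ))) ^ 2 * (2 ^ n * 2 ^ n) = (2 ^ n / (2 * K)) ^ 2 := by
        rw [div_pow, div_pow]; ring
      rw [e]
      exact pow_le_pow_left₀ (by positivity) (div_le_div_of_nonneg_right hmbig (by positivity)) 2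
    calc κ / 2 * (τ ^ 2 * (1 / (2 * (K : ℝ))) ^ 2) * (2 ^ n * 2 ^ n)
        = κ / 2 * (τ ^ 2 * ((1 / (2 * (K : ℝ))) ^ 2 * (2 ^ n * 2 ^ n))) := by ring
      _ ≤ κ / 2 * (τ ^ 2 * (m / (2 * K)) ^ 2) := by
          refine mul_le_mul_of_nonneg_left (mul_le_mul_of_nonneg_left h1 (by positivity))
            (by positivity)
  obtain ⟨A, hAG, hAt, hAc⟩ := fixed_thm G 𝒳 (δ := δ') hε0 hε₁0 hετ hτ1 hκ0 hεκ hκ1 hκ₀0 hθ0.le
    hθcond L hL1 hδcond hlG hGpos hbig
  refine ⟨A, hAG, ?_, ?_⟩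
  · intro a ha X hX
    refine (hAt a ha X hX).trans ?_
    have : δ' ≤ δ := by rw [hδ']; linarith
    exact mul_le_mul_of_nonneg_right this (Nat.cast_nonneg _)
  · have e3 : 3 * δ' = δ := by rw [hδ']; ring
    rw [e3] at hAc
    have hAcard : (A.card : ℝ) ≤ m := by rw [hm]; exact_mod_cast Finset.card_le_card hAG
    -- error terms
    have hmc : m ^ 2 ≤ c ^ 2 * 4 ^ n := by
      rw [h4]
      calc m ^ 2 ≤ (c * 2 ^ n) ^ 2 := pow_le_pow_left₀ hm0 hGc 2
        _ = c ^ 2 * (2 ^ n * 2 ^ n) := by ring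
    have t1 : m ≤ η / 8 * 4 ^ n := by
      rw [div_le_iff₀ hη] at hc2
      refine hGc.trans ?_
      rw [h4]
      have h1 : c ≤ η / 8 * 2 ^ n := by linarith
      have h2 := mul_le_mul_of_nonneg_right h1 h2pos.le
      linarith
    have t2 : ((unb 𝒳 δ').card : ℝ) ≤ η / 8 * 4 ^ n := by
      have h1 := unb_card 𝒳 hδ'0 (show 0 < 2 * n by omega)
      rw [hpow, hNr] at h1
      refine h1.trans ?_
      have h𝒳r : (𝒳.card : ℝ) ≤ r := by exact_mod_cast h𝒳
      have h2 : (r : ℝ) / (4 * δ' ^ 2) / (η / 8) ≤ n := by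
        have : (n3 : ℝ) ≤ n := by exact_mod_cast hnn3
        linarith
      rw [div_le_iff₀ (by positivity), div_le_iff₀ (by positivity)] at h2
      have h3 : (𝒳.card : ℝ) * (4 ^ n / (4 * δ' ^ 2 * (2 * n))) =
          (𝒳.card / (4 * δ' ^ 2 * (2 * n))) * 4 ^ n := by ring
      rw [h3]
      refine mul_le_mul_of_nonneg_right ?_ h4pos.le
      rw [div_le_iff₀ (by positivity)]
      have hpos : 0 ≤ n * (η / 8) * (4 * δ' ^ 2) := by positivity
      have e : η / 8 * (4 * δ' ^ 2 * (2 * n)) = 2 * (n * (η / 8) * (4 * δ' ^ 2)) := by ring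
      rw [e]
      linarith
    have t3 : 2 * τ * 𝒳.card * m ^ 2 ≤ η / 8 * 4 ^ n := by
      have h𝒳r : (𝒳.card : ℝ) ≤ r := by exact_mod_cast h𝒳
      have h1 : 2 * τ * 𝒳.card ≤ 2 * s := by
        have : τ * 𝒳.card ≤ τ * r := mul_le_mul_of_nonneg_left h𝒳r hτ0.le
        linarith
      have h2 : 2 * τ * 𝒳.card * m ^ 2 ≤ 2 * s * (c ^ 2 * 4 ^ n) :=
        mul_le_mul h1 hmc (by positivity) (by positivity)
      refine h2.trans ?_
      have h3 : 2 * s * c ^ 2 ≤ η / 8 := by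
        have e : s * (16 * (c ^ 2 + 1)) = 16 * (s * c ^ 2) + 16 * s := by ring
        rw [e] at hsη
        linarith
      calc 2 * s * (c ^ 2 * 4 ^ n) = (2 * s * c ^ 2) * 4 ^ n := by ring
        _ ≤ η / 8 * 4 ^ n := mul_le_mul_of_nonneg_right h3 h4pos.le
    have t4 : (4 * ε + ε₁ / 2 + 4 * κ + 2 / L) / 2 * m ^ 2 ≤ η / 8 * 4 ^ n := by
      have h1 : (4 * ε + ε₁ / 2 + 4 * κ + 2 / L) / 2 ≤ 2 * s := by
        have : ε₁ / 2 = s := by rw [hε₁]; ring
        have : 4 * κ = s := by rw [hκ]; ring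
        linarith
      have h2 : (4 * ε + ε₁ / 2 + 4 * κ + 2 / L) / 2 * m ^ 2 ≤ 2 * s * (c ^ 2 * 4 ^ n) :=
        mul_le_mul h1 hmc (by positivity) (by positivity)
      refine h2.trans ?_
      have h3 : 2 * s * c ^ 2 ≤ η / 8 := by
        have e : s * (16 * (c ^ 2 + 1)) = 16 * (s * c ^ 2) + 16 * s := by ring
        rw [e] at hsη
        linarith
      calc 2 * s * (c ^ 2 * 4 ^ n) = (2 * s * c ^ 2) * 4 ^ n := by ring
        _ ≤ η / 8 * 4 ^ n := mul_le_mul_of_nonneg_right h3 h4pos.le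
    have t5 : (m - A.card) ^ 2 / 4 ≤ (c - A.card / 2 ^ n) ^ 2 / 4 * 4 ^ n := by
      have h1 : (c - A.card / 2 ^ n) ^ 2 / 4 * 4 ^ n = (c * 2 ^ n - A.card) ^ 2 / 4 := by
        rw [h4]; field_simp
      rw [h1]
      have : (m - A.card) ^ 2 ≤ (c * 2 ^ n - A.card) ^ 2 :=
        pow_le_pow_left₀ (by linarith) (by linarith) 2
      linarith
    have hγη : γ ≤ η / 8 := min_le_left _ _
    have t6 : γ * 4 ^ n ≤ η / 8 * 4 ^ n := mul_le_mul_of_nonneg_right hγη h4pos.le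
    have hη4 : 0 ≤ η * 4 ^ n := by positivity
    linarith

end EM
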