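import Mathlib

/-!
# Erdos-Moser 2-bases of the Boolean cube: common definitions

`v : α → Finset (Fin N)` assigns to every abstract vertex a subset of `Fin N`; `H` is a graph on
the vertices all of whose edges have different unions (`UU`).
-/

open Finset

namespace EM

/-- `q = 1/√2`, the probability that a random-like member avoids a coordinate. -/
noncomputable def q : ℝ := √2 / 2

lemma q_pos : 0 < q := by unfold q; positivity

lemma q_sq : q * q = 1 / 2 := by
  unfold q
  have h : √2 * √2 = 2 := Real.mul_self_sqrt (by norm_num)
  nlinarith

lemma q_lt_one : q < 1 := by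
  have := q_sq
  have h := q_pos
  nlinarith

lemma q_gt : 0.7071 < q := by
  have := q_sq
  have h := q_pos
  nlinarith

lemma q_lt : q < 0.70711 := by
  have := q_sq
  have h := q_pos
  nlinarith

variable {α : Type*} {N : ℕ}

/-- the members of `U` which avoid the coordinate `i` -/
def avo (v : α → Finset (Fin N)) (U : Finset α) (i : Fin N) : Finset α :=
  U.filter fun a => i ∉ v a

/-- proportion of the members of `U` which avoid the coordinate `i` -/
noncomputable def av (v : α → Finset (Fin N)) (U : Finset α) (i : Fin N) : ℝ :=
  ((avo v U i).card : ℝ) / (U.card : ℝ)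

/-- `L¹` distance of the avoidance profile of `U` from the constant profile `q` -/
noncomputable def dev (v : α → Finset (Fin N)) (U : Finset α) : ℝ :=
  ∑ i : Fin N, |av v U i - q|

/-- `L¹` distance of the product of two profiles from `1/2` -/
noncomputable def pdev (v : α → Finset (Fin N)) (U V : Finset α) : ℝ :=
  ∑ i : Fin N, |av v U i * av v V i - 1 / 2|

/-- all edges of `H` have different unions -/
def UU (H : SimpleGraph α) (v : α → Finset (Fin N)) : Prop :=
  ∀ a b a' b' : α, H.Adj a b → H.Adj a' b' → v a ∪ v b = v a' ∪ v b' →
    (a = a' ∧ b = b') ∨ (a = b' ∧ b = a')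

/-- `a` is typical with respect to the test set `X` -/
def Typ (v : α → Finset (Fin N)) (δ : ℝ) (X : Finset (Fin N)) (a : α) : Prop :=
  |((v a ∩ X).card : ℝ) - (1 - q) * X.card| ≤ δ * N

noncomputable instance (v : α → Finset (Fin N)) (δ : ℝ) (X : Finset (Fin N)) :
    DecidablePred (Typ v δ X) := Classical.decPred _

end EM
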