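import Pool.Agent.Work.MP_2b8540_co.Choice

/-! the structure theorem for one family, with explicit error terms -/

open Finset

namespace EM

variable {N : ℕ}

private lemma aux_div {n k : ℕ} (hk : 0 < k) (hn : k ≤ n) : n < 2 * k * (n / k) := by
  rw [mul_assoc, two_mul, ← add_lt_add_iff_right (n % k), add_right_comm, add_assoc,
    Nat.mod_add_div n k, add_comm, add_lt_add_iff_right]
  apply (Nat.mod_lt n hk).trans_le
  simpa using Nat.mul_le_mul_left k ((Nat.one_le_div_iff hk).2 hn)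

lemma part_card {α : Type*} [Fintype α] [DecidableEq α] {P : Finpartition (Finset.univ : Finset α)}
    {s : Finset α} {K : ℕ} (hP₁ : P.IsEquipartition) (hP₃ : P.parts.card ≤ K)
    (hX : s ∈ P.parts) : (Fintype.card α : ℝ) / (2 * K) ≤ s.card := by
  have hpos : 0 < P.parts.card := Finset.card_pos.mpr ⟨s, hX⟩
  have h1 : P.parts.card ≤ Fintype.card α := by
    have := P.card_parts_le_card
    rwa [Finset.card_univ] at this
  calc
    (Fintype.card α : ℝ) / (2 * K) ≤ Fintype.card α / (2 * P.parts.card : ℝ) := by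
        gcongr
    _ ≤ ((Fintype.card α / P.parts.card : ℕ) : ℝ) :=
      (div_le_iff₀' (by positivity)).2 <| mod_cast (aux_div hpos h1).le
    _ ≤ (s.card : ℝ) := by
        have := hP₁.average_le_card_part hX
        rw [Finset.card_univ] at this
        exact_mod_cast this

theorem fixed_thm (G 𝒳 : Finset (Finset (Fin N))) {ε ε₁ τ η κ₀ θ δ : ℝ} (hε : 0 < ε)
    (hε₁ : 0 < ε₁) (hετ : ε ≤ τ) (hτ1 : τ ≤ 1) (hη0 : 0 < η)
    (hεη : ε ≤ η / 2) (hη1 : η ≤ 1) (hκ₀ : 0 < κ₀)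
    (hθ0 : 0 ≤ θ) (hθ : (4 * ε / (τ * η)) * N + 1 / 2 * √(N / κ₀) ≤ θ * N)
    (L : ℕ) (hL : 1 ≤ L) (hδ : 3 * (3 ^ (L + 2) * θ) ≤ δ)
    (hl : ⌈4 / ε₁⌉₊ ≤ G.card) (hG : 0 < G.card)
    (hbig : κ₀ * 2 ^ N ≤ (η / 2) * (τ ^ 2 *
      ((G.card : ℝ) / (2 * SzemerediRegularity.bound ε ⌈4 / ε₁⌉₊)) ^ 2)) :
    ∃ A ⊆ G, (∀ a ∈ A, ∀ X ∈ 𝒳, |((a ∩ X).card : ℝ) - (1 - q) * X.card| ≤ δ * N) ∧
      ((Cov G).card : ℝ) ≤ G.card + (goodSets G A 𝒳 (3 * δ)).card + (unb 𝒳 δ).card +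
        2 * τ * 𝒳.card * (G.card : ℝ) ^ 2 +
        (4 * ε + ε₁ / 2 + 4 * η + 2 / L) / 2 * (G.card : ℝ) ^ 2 +
        ((G.card : ℝ) - A.card) ^ 2 / 4 := by
  classical
  obtain ⟨H, hUU, hcov, hgood⟩ := choice_thm G 𝒳 δ
  have hcardG : Fintype.card ↥G = G.card := Fintype.card_coe G
  have : Nonempty ↥G := by
    obtain ⟨x, hx⟩ := Finset.card_pos.mp hG
    exact ⟨⟨x, hx⟩⟩
  obtain ⟨P, hP1, hP2, hP3, hP4⟩ := szemeredi_regularity H hε
    (show ⌈4 / ε₁⌉₊ ≤ Fintype.card ↥G by rw [hcardG]; exact hl)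
  set K := SzemerediRegularity.bound ε ⌈4 / ε₁⌉₊ with hK
  have hτ0 : 0 < τ := lt_of_lt_of_le hε hετ
  have hparts : 4 / ε₁ ≤ (P.parts.card : ℝ) :=
    (Nat.le_ceil _).trans (by exact_mod_cast hP2)
  have hm : (Fintype.card ↥G : ℝ) = G.card := by exact_mod_cast hcardG
  have hbig' : ∀ U ∈ P.parts, ∀ V ∈ P.parts,
      κ₀ * 2 ^ N ≤ (η / 2) * ((τ * (U.card : ℝ)) * (τ * V.card)) := by
    intro U hU V hV
    refine hbig.trans ?_
    have h1 := part_card hP1 hP3 hU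
    have h2 := part_card hP1 hP3 hV
    rw [hm] at h1 h2
    have h0 : 0 ≤ (G.card : ℝ) / (2 * K) := by positivity
    refine mul_le_mul_of_nonneg_left ?_ (by positivity)
    have h3 : ((G.card : ℝ) / (2 * K)) ^ 2 ≤ (U.card : ℝ) * V.card := by
      rw [sq]; exact mul_le_mul h1 h2 h0 (h0.trans h1)
    calc τ ^ 2 * ((G.card : ℝ) / (2 * K)) ^ 2 ≤ τ ^ 2 * ((U.card : ℝ) * V.card) :=
          mul_le_mul_of_nonneg_left h3 (by positivity)
      _ = (τ * (U.card : ℝ)) * (τ * V.card) := by ring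
  obtain ⟨A0, hA0c, hA0t⟩ := structure_thm hUU P hε hε₁ hετ hτ1 hη0 hεη hη1 hP1 hP4 hparts hκ₀ hbig'
    hθ0 hθ L hL hδ 𝒳
  rw [hm] at hA0c hA0t
  set v : ↥G → Finset (Fin N) := fun x => (x : Finset (Fin N)) with hv
  set A1 := A0.filter fun a => ∀ X ∈ 𝒳, Typ v δ X a with hA1
  have hA1good := hgood A1 (fun a ha => (Finset.mem_filter.mp ha).2)
  have hA1A0 : A1 ⊆ A0 := Finset.filter_subset _ _
  have hdiff : A0 \ A1 = A0.filter fun a => ∃ X ∈ 𝒳, ¬ Typ v δ X a := by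
    ext a
    simp only [hA1, Finset.mem_sdiff, Finset.mem_filter, not_and, not_forall]
    constructor
    · rintro ⟨h1, h2⟩
      obtain ⟨X, hX, hXn⟩ := h2 h1
      exact ⟨h1, X, hX, hXn⟩
    · rintro ⟨h1, X, hX, hXn⟩
      exact ⟨h1, fun _ => ⟨X, hX, hXn⟩⟩
  have hdc : ((A0 \ A1).card : ℝ) ≤ 2 * τ * 𝒳.card * (G.card : ℝ) := by
    rw [hdiff]; exact hA0t
  refine ⟨A1.image Subtype.val, ?_, ?_, ?_⟩
  · intro x hx
    obtain ⟨y, _, rfl⟩ := Finset.mem_image.mp hx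
    exact y.2
  · intro a ha X hX
    obtain ⟨y, hy, rfl⟩ := Finset.mem_image.mp ha
    exact (Finset.mem_filter.mp hy).2 X hX
  · have hA1c : (A1.image Subtype.val).card = A1.card :=
      Finset.card_image_of_injective _ Subtype.val_injective
    rw [hA1c]
    set E := (Finset.univ.filter fun p : ↥G × ↥G => H.Adj p.1 p.2) with hE
    set E0 := (Finset.univ.filter fun p : ↥G × ↥G => p.1 ∈ A0 ∧ p.2 ∈ A0 ∧ H.Adj p.1 p.2) with hE0
    set E1 := (Finset.univ.filter fun p : ↥G × ↥G => p.1 ∈ A1 ∧ p.2 ∈ A1 ∧ H.Adj p.1 p.2) with hE1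
    have hsub : E0 ⊆ E1 ∪ ((A0 \ A1) ×ˢ Finset.univ) ∪ (Finset.univ ×ˢ (A0 \ A1)) := by
      intro p hp
      obtain ⟨_, h1, h2, h3⟩ := Finset.mem_filter.mp hp
      simp only [Finset.mem_union]
      by_cases c1 : p.1 ∈ A1
      · by_cases c2 : p.2 ∈ A1
        · left; left
          exact Finset.mem_filter.mpr ⟨Finset.mem_univ _, c1, c2, h3⟩
        · right
          exact Finset.mem_product.mpr ⟨Finset.mem_univ _, Finset.mem_sdiff.mpr ⟨h2, c2⟩⟩
      · left; right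
        exact Finset.mem_product.mpr ⟨Finset.mem_sdiff.mpr ⟨h1, c1⟩, Finset.mem_univ _⟩
    have hE0c : (E0.card : ℝ) ≤ E1.card + 2 * ((A0 \ A1).card * (G.card : ℝ)) := by
      have h1 := Finset.card_le_card hsub
      have h2 := Finset.card_union_le (E1 ∪ ((A0 \ A1) ×ˢ Finset.univ))
        ((Finset.univ : Finset ↥G) ×ˢ (A0 \ A1))
      have h3 := Finset.card_union_le E1 ((A0 \ A1) ×ˢ (Finset.univ : Finset ↥G))
      rw [Finset.card_product, Finset.card_univ, hcardG] at h2 h3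
      have h4 : E0.card ≤ E1.card + (A0 \ A1).card * G.card + G.card * (A0 \ A1).card := by
        omega
      have h5 : (E0.card : ℝ) ≤ E1.card + (A0 \ A1).card * G.card + G.card * (A0 \ A1).card := by
        exact_mod_cast h4
      linarith
    have hcov' : ((Cov G).card : ℝ) ≤ G.card + (E.card : ℝ) / 2 := by
      convert hcov
    have hgood' : (E1.card : ℝ) / 2 ≤
        ((goodSets G (A1.image Subtype.val) 𝒳 (3 * δ)).card : ℝ) + (unb 𝒳 δ).card := by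
      convert hA1good
    have hA0c' : (E.card : ℝ) ≤ E0.card +
        (4 * ε + ε₁ / 2 + 4 * η + 2 / L) * (G.card : ℝ) ^ 2 + ((G.card : ℝ) - A0.card) ^ 2 / 2 := by
      convert hA0c
    have hA01 : (A1.card : ℝ) ≤ A0.card := by exact_mod_cast Finset.card_le_card hA1A0
    have hA0m : (A0.card : ℝ) ≤ G.card := by
      rw [← hm]; exact_mod_cast Finset.card_le_univ A0
    have hsq : ((G.card : ℝ) - A0.card) ^ 2 ≤ ((G.card : ℝ) - A1.card) ^ 2 :=
      pow_le_pow_left₀ (by linarith) (by linarith) 2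
    have hmul : (A0 \ A1).card * (G.card : ℝ) ≤ 2 * τ * 𝒳.card * (G.card : ℝ) ^ 2 := by
      have := mul_le_mul_of_nonneg_right hdc (show (0 : ℝ) ≤ G.card from Nat.cast_nonneg _)
      nlinarith
    nlinarith

end EM
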