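import Pool.Agent.Work.MP_2b8540_co.Defs

/-! second moments of linear functions on the cube, balance and Chebyshev -/

open Finset

namespace EM

/-- `±1/2` according to `i ∉ S` or `i ∈ S` -/
noncomputable def xi {N : ℕ} (i : Fin N) (S : Finset (Fin N)) : ℝ :=
  (if i ∈ S then 0 else 1) - 1 / 2

lemma xi_sq {N : ℕ} (i : Fin N) (S : Finset (Fin N)) : xi i S * xi i S = 1 / 4 := by
  unfold xi; split_ifs <;> norm_num

lemma xi_flip {N : ℕ} (i : Fin N) (S : Finset (Fin N)) :
    xi i (symmDiff S {i}) = - xi i S := by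
  unfold xi
  by_cases h : i ∈ S
  · have : i ∉ symmDiff S {i} := by simp [Finset.mem_symmDiff, h]
    rw [if_neg this, if_pos h]; norm_num
  · have : i ∈ symmDiff S {i} := by simp [Finset.mem_symmDiff, h]
    rw [if_pos this, if_neg h]; norm_num

lemma xi_flip_ne {N : ℕ} {i j : Fin N} (hij : i ≠ j) (S : Finset (Fin N)) :
    xi j (symmDiff S {i}) = xi j S := by
  unfold xi
  have : j ∈ symmDiff S {i} ↔ j ∈ S := by
    simp only [Finset.mem_symmDiff, Finset.mem_singleton]
    constructor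
    · rintro (h | h)
      · exact h.1
      · exact absurd h.1.symm hij
    · intro h
      exact Or.inl ⟨h, fun h' => hij h'.symm⟩
  simp only [this]

lemma sum_xi_mul {N : ℕ} {i j : Fin N} (hij : i ≠ j) :
    ∑ S : Finset (Fin N), xi i S * xi j S = 0 := by
  have hinv : Function.Involutive (fun S : Finset (Fin N) => symmDiff S {i}) := by
    intro S
    simp
  have h := Equiv.sum_comp (Function.Involutive.toPerm _ hinv)
    (fun S : Finset (Fin N) => xi i S * xi j S)
  have h2 : ∑ S : Finset (Fin N), xi i ((Function.Involutive.toPerm _ hinv) S) *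
      xi j ((Function.Involutive.toPerm _ hinv) S) = - ∑ S : Finset (Fin N), xi i S * xi j S := by
    rw [← Finset.sum_neg_distrib]
    refine Finset.sum_congr rfl fun S _ => ?_
    have e : (Function.Involutive.toPerm _ hinv) S = symmDiff S {i} := rfl
    rw [e, xi_flip, xi_flip_ne hij]
    ring
  linarith

theorem sum_sq (N : ℕ) (s : Fin N → ℝ) :
    ∑ S : Finset (Fin N), (∑ i, s i * xi i S) ^ 2 = 2 ^ N / 4 * ∑ i, s i ^ 2 := by
  have h1 : ∀ S : Finset (Fin N), (∑ i, s i * xi i S) ^ 2 =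
      ∑ i, ∑ j, (s i * s j) * (xi i S * xi j S) := by
    intro S
    rw [sq, Finset.sum_mul_sum]
    refine Finset.sum_congr rfl fun i _ => Finset.sum_congr rfl fun j _ => by ring
  simp only [h1]
  rw [Finset.sum_comm]
  have h2 : ∀ i : Fin N, ∑ S : Finset (Fin N), ∑ j, (s i * s j) * (xi i S * xi j S) =
      2 ^ N / 4 * s i ^ 2 := by
    intro i
    rw [Finset.sum_comm]
    rw [Finset.sum_eq_single i]
    · simp only [xi_sq]
      rw [Finset.sum_const, Finset.card_univ, Fintype.card_finset, Fintype.card_fin, nsmul_eq_mul]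
      push_cast
      ring
    · intro j _ hj
      rw [← Finset.mul_sum, sum_xi_mul (Ne.symm hj), mul_zero]
    · intro h; exact absurd (Finset.mem_univ i) h
  simp only [h2]
  rw [Finset.mul_sum]

/-- a family of sets with `t` members is balanced in the `L¹` sense -/
theorem balance {N : ℕ} (T : Finset (Finset (Fin N))) :
    ∑ i : Fin N, |((T.filter fun S => i ∉ S).card : ℝ) - T.card / 2| ≤
      1 / 2 * √(T.card * (N * 2 ^ N)) := by
  classical
  set s : Fin N → ℝ := fun i =>
    if 0 ≤ ((T.filter fun S => i ∉ S).card : ℝ) - T.card / 2 then 1 else -1 with hs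
  have hs2 : ∀ i, s i ^ 2 = 1 := by
    intro i; simp only [hs]; split_ifs <;> norm_num
  have hcount : ∀ i : Fin N, ((T.filter fun S => i ∉ S).card : ℝ) - T.card / 2 =
      ∑ S ∈ T, xi i S := by
    intro i
    unfold xi
    rw [Finset.sum_sub_distrib]
    have : ∑ S ∈ T, (if i ∈ S then (0 : ℝ) else 1) = ((T.filter fun S => i ∉ S).card : ℝ) := by
      rw [Finset.card_filter]
      push_cast
      refine Finset.sum_congr rfl fun S _ => ?_
      by_cases h : i ∈ S <;> simp [h]
    rw [this, Finset.sum_const, nsmul_eq_mul]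
    ring
  have habs : ∀ i : Fin N, |((T.filter fun S => i ∉ S).card : ℝ) - T.card / 2| =
      s i * ∑ S ∈ T, xi i S := by
    intro i
    rw [← hcount i]
    simp only [hs]
    split_ifs with h
    · rw [abs_of_nonneg h]; ring
    · rw [abs_of_neg (not_le.mp h)]; ring
  have hsum : ∑ i : Fin N, |((T.filter fun S => i ∉ S).card : ℝ) - T.card / 2| =
      ∑ S ∈ T, ∑ i, s i * xi i S := by
    simp only [habs, Finset.mul_sum]
    rw [Finset.sum_comm]
  rw [hsum]
  have hcs : (∑ S ∈ T, ∑ i, s i * xi i S) ^ 2 ≤ T.card * ∑ S ∈ T, (∑ i, s i * xi i S) ^ 2 :=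
    sq_sum_le_card_mul_sum_sq
  have hle : ∑ S ∈ T, (∑ i, s i * xi i S) ^ 2 ≤ 2 ^ N / 4 * N := by
    calc ∑ S ∈ T, (∑ i, s i * xi i S) ^ 2 ≤ ∑ S : Finset (Fin N), (∑ i, s i * xi i S) ^ 2 :=
          Finset.sum_le_sum_of_subset_of_nonneg (Finset.subset_univ _) fun _ _ _ => sq_nonneg _
      _ = 2 ^ N / 4 * ∑ i, s i ^ 2 := sum_sq N s
      _ = 2 ^ N / 4 * N := by simp [hs2]
  have h3 : (∑ S ∈ T, ∑ i, s i * xi i S) ^ 2 ≤ (1 / 2 * √(T.card * (N * 2 ^ N))) ^ 2 := by
    rw [mul_pow, Real.sq_sqrt (by positivity)]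
    calc (∑ S ∈ T, ∑ i, s i * xi i S) ^ 2 ≤ T.card * (2 ^ N / 4 * N) :=
          hcs.trans (mul_le_mul_of_nonneg_left hle (Nat.cast_nonneg _))
      _ = (1 / 2) ^ 2 * (T.card * (N * 2 ^ N)) := by ring
  exact le_of_sq_le_sq h3 (by positivity)

/-- Chebyshev: few sets are unbalanced on a test set -/
theorem cheb {N : ℕ} (X : Finset (Fin N)) {δ : ℝ} (hδ : 0 < δ) (hN : 0 < N) :
    (((Finset.univ : Finset (Finset (Fin N))).filter
      fun S => δ * N < |((S ∩ X).card : ℝ) - X.card / 2|).card : ℝ) ≤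
      2 ^ N / (4 * δ ^ 2 * N) := by
  classical
  set s : Fin N → ℝ := fun i => if i ∈ X then -1 else 0 with hs
  have hval : ∀ S : Finset (Fin N), ∑ i, s i * xi i S = ((S ∩ X).card : ℝ) - X.card / 2 := by
    intro S
    have h1 : ∀ i, s i * xi i S = (if i ∈ S ∩ X then (1 : ℝ) else 0) - (if i ∈ X then 1 / 2 else 0) := by
      intro i
      simp only [hs, xi, Finset.mem_inter]
      by_cases h1 : i ∈ X <;> by_cases h2 : i ∈ S <;> simp [h1, h2] <;> norm_num
    simp only [h1, Finset.sum_sub_distrib]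
    rw [← Finset.sum_filter, ← Finset.sum_filter]
    have e1 : (Finset.univ.filter fun i => i ∈ S ∩ X) = S ∩ X := by ext i; simp
    have e2 : (Finset.univ.filter fun i => i ∈ X) = X := by ext i; simp
    rw [e1, e2, Finset.sum_const, Finset.sum_const, nsmul_eq_mul, nsmul_eq_mul]
    ring
  set B := (Finset.univ : Finset (Finset (Fin N))).filter
      fun S => δ * N < |((S ∩ X).card : ℝ) - X.card / 2| with hB
  have hNr : (0 : ℝ) < N := by exact_mod_cast hN
  have h1 : (B.card : ℝ) * (δ * N) ^ 2 ≤ ∑ S : Finset (Fin N), (∑ i, s i * xi i S) ^ 2 := by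
    calc (B.card : ℝ) * (δ * N) ^ 2 = ∑ _S ∈ B, (δ * N) ^ 2 := by
          rw [Finset.sum_const, nsmul_eq_mul]
      _ ≤ ∑ S ∈ B, (∑ i, s i * xi i S) ^ 2 := by
          refine Finset.sum_le_sum fun S hS => ?_
          rw [hval, ← sq_abs (((S ∩ X).card : ℝ) - X.card / 2)]
          have := (Finset.mem_filter.mp hS).2
          exact pow_le_pow_left₀ (by positivity) this.le 2
      _ ≤ ∑ S : Finset (Fin N), (∑ i, s i * xi i S) ^ 2 :=
          Finset.sum_le_sum_of_subset_of_nonneg (Finset.subset_univ _) fun _ _ _ => sq_nonneg _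
  rw [sum_sq] at h1
  have h2 : ∑ i, s i ^ 2 ≤ N := by
    calc ∑ i, s i ^ 2 ≤ ∑ _i : Fin N, (1 : ℝ) := by
          refine Finset.sum_le_sum fun i _ => ?_
          simp only [hs]; split_ifs <;> norm_num
      _ = N := by simp
  have h3 : (B.card : ℝ) * (δ * N) ^ 2 ≤ 2 ^ N / 4 * N :=
    h1.trans (mul_le_mul_of_nonneg_left h2 (by positivity))
  rw [le_div_iff₀ (by positivity)]
  have h4 : (B.card : ℝ) * (4 * δ ^ 2 * N) * N ≤ 2 ^ N * N := by nlinarith
  exact le_of_mul_le_mul_right h4 hNr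

end EM
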