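import Pool.Agent.Work.MP_2b8540_co.Core

/-! the numerical consequences -/

open Finset Filter

namespace EM

lemma D_gt_one {c : ℝ} (hc0 : 0 < c) (hc2 : c < 2) : 1 < √(3 - c ^ 2 / 2) := by
  rw [Real.lt_sqrt (by norm_num)]
  nlinarith

/-- from `y ≥ 1 - η' - (c-x)^2/4` and `y ≤ x^2/2 + η'` one gets `x ≥ u(c) - ζ` -/
lemma num_x {c x y η' ζ : ℝ} (hc0 : 0 < c) (hc2 : c < 2) (hx0 : 0 ≤ x) (hζ : 0 < ζ)
    (hsmall : 2 * η' ≤ ζ * ((2 * √(3 - c ^ 2 / 2) - c) / 4))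
    (h1 : 1 - η' - (c - x) ^ 2 / 4 ≤ y) (h2 : y ≤ x ^ 2 / 2 + η') :
    (c + 2 * √(3 - c ^ 2 / 2)) / 3 - ζ ≤ x := by
  set D := √(3 - c ^ 2 / 2) with hD
  have hD1 : 1 < D := D_gt_one hc0 hc2
  have hDsq : D ^ 2 = 3 - c ^ 2 / 2 := Real.sq_sqrt (by nlinarith)
  by_contra hcon
  rw [not_le] at hcon
  have h3 : 0 ≤ 3 / 4 * ((x - (c + 2 * D) / 3) * (x - (c - 2 * D) / 3)) + 2 * η' := by
    have e : 3 / 4 * ((x - (c + 2 * D) / 3) * (x - (c - 2 * D) / 3)) =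
        3 / 4 * x ^ 2 - c * x / 2 + (c ^ 2 - 4 * D ^ 2) / 12 := by ring
    rw [e, hDsq]
    nlinarith
  have h4 : x - (c + 2 * D) / 3 < -ζ := by linarith
  have h5 : (2 * D - c) / 3 ≤ x - (c - 2 * D) / 3 := by linarith
  have h6 : 0 < (2 * D - c) / 3 := by linarith
  have h7 : (x - (c + 2 * D) / 3) * (x - (c - 2 * D) / 3) < -ζ * ((2 * D - c) / 3) := by
    calc (x - (c + 2 * D) / 3) * (x - (c - 2 * D) / 3)
        ≤ (x - (c + 2 * D) / 3) * ((2 * D - c) / 3) :=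
          mul_le_mul_of_nonpos_left h5 (by linarith)
      _ < -ζ * ((2 * D - c) / 3) := mul_lt_mul_of_pos_right h4 h6
  nlinarith

lemma num_y {c x ζ η η' : ℝ} (hc0 : 0 < c) (hc2 : c < 2) (hxc : x ≤ c) (hζ0 : 0 < ζ)
    (hζ1 : ζ ≤ 1) (hζη : ζ ≤ η / 2) (hη' : η' ≤ η / 4)
    (hx : (c + 2 * √(3 - c ^ 2 / 2)) / 3 - ζ ≤ x) :
    1 - (c - √(3 - c ^ 2 / 2)) ^ 2 / 9 - η ≤ 1 - η' - (c - x) ^ 2 / 4 := by
  set D := √(3 - c ^ 2 / 2) with hD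
  have hD1 : 1 < D := D_gt_one hc0 hc2
  have h1 : c - x ≤ 2 / 3 * (c - D) + ζ := by linarith
  have h2 : (c - x) ^ 2 ≤ (2 / 3 * (c - D) + ζ) ^ 2 := pow_le_pow_left₀ (by linarith) h1 2
  have h3 : (2 / 3 * (c - D) + ζ) ^ 2 ≤ 4 / 9 * (c - D) ^ 2 + 4 / 3 * ζ + ζ := by
    have e : (2 / 3 * (c - D) + ζ) ^ 2 = 4 / 9 * (c - D) ^ 2 + 4 / 3 * ζ * (c - D) + ζ * ζ := by
      ring
    rw [e]
    have h4 : 4 / 3 * ζ * (c - D) ≤ 4 / 3 * ζ * 1 :=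
      mul_le_mul_of_nonneg_left (by linarith) (by positivity)
    have h5 : ζ * ζ ≤ ζ * 1 := mul_le_mul_of_nonneg_left hζ1 hζ0.le
    linarith
  linarith

lemma goodSets_sub {N : ℕ} (G A 𝒳 : Finset (Finset (Fin N))) (δ : ℝ) :
    goodSets G A 𝒳 δ ⊆ Cov A := by
  classical
  intro S hS
  unfold goodSets at hS
  unfold Cov
  exact Finset.mem_filter.mpr ⟨Finset.mem_univ _, (Finset.mem_filter.mp hS).2.1⟩

theorem structure_full {c δ η : ℝ} (hc : 0 < c) (hc2 : c < 2) (hδ : 0 < δ) (hη : 0 < η) (r : ℕ) :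
    ∃ γ : ℝ, 0 < γ ∧ ∃ n₀ : ℕ, ∀ n ≥ n₀, ∀ G : Finset (Finset (Fin (2 * n))),
      (G.card : ℝ) ≤ c * 2 ^ n → (1 - γ) * 4 ^ n ≤ ((Cov G).card : ℝ) →
      ∀ 𝒳 : Finset (Finset (Fin (2 * n))), 𝒳.card ≤ r →
      ∃ A ⊆ G, (∀ a ∈ A, ∀ X ∈ 𝒳,
          |((a ∩ X).card : ℝ) - (1 - q) * X.card| ≤ δ * ((2 * n : ℕ) : ℝ)) ∧
        ((c + 2 * √(3 - c ^ 2 / 2)) / 3 - η) * 2 ^ n ≤ (A.card : ℝ) ∧
        (1 - (c - √(3 - c ^ 2 / 2)) ^ 2 / 9 - η) * 4 ^ n ≤ ((goodSets G A 𝒳 δ).card : ℝ) ∧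
        (1 - η - (c - A.card / 2 ^ n) ^ 2 / 4) * 4 ^ n ≤ ((goodSets G A 𝒳 δ).card : ℝ) := by
  have hD1 := D_gt_one hc hc2
  set D := √(3 - c ^ 2 / 2) with hD
  set ζ : ℝ := min 1 (η / 2) with hζ
  have hζ0 : 0 < ζ := lt_min one_pos (by positivity)
  have hζ1 : ζ ≤ 1 := min_le_left _ _
  have hζη : ζ ≤ η / 2 := min_le_right _ _
  have hgap : 0 < (2 * D - c) / 4 := by linarith
  set η' : ℝ := min (η / 4) (ζ * ((2 * D - c) / 4) / 2) with hη'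
  have hη'0 : 0 < η' := lt_min (by positivity) (by positivity)
  have hη'1 : η' ≤ η / 4 := min_le_left _ _
  have hη'2 : 2 * η' ≤ ζ * ((2 * D - c) / 4) := by
    have : η' ≤ ζ * ((2 * D - c) / 4) / 2 := min_le_right _ _
    linarith
  obtain ⟨γ, hγ, n1, hn1⟩ := core hc hδ hη'0 r
  have htend : Tendsto (fun n : ℕ => (2 : ℝ) ^ n) atTop atTop :=
    tendsto_pow_atTop_atTop_of_one_lt (by norm_num)
  obtain ⟨n2, hn2⟩ := (htend.eventually_ge_atTop (c / η')).exists_forall_of_atTop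
  refine ⟨γ, hγ, max n1 n2, ?_⟩
  intro n hn G hG hcov 𝒳 h𝒳
  obtain ⟨A, hAG, hAt, hAc⟩ := hn1 n (le_trans (le_max_left _ _) hn) G hG hcov 𝒳 h𝒳
  have h2n := hn2 n (le_trans (le_max_right _ _) hn)
  have h2pos : (0 : ℝ) < 2 ^ n := by positivity
  have h4 : (4 : ℝ) ^ n = 2 ^ n * 2 ^ n := by
    rw [← mul_pow]; norm_num
  have h4pos : (0 : ℝ) < 4 ^ n := by positivity
  have hAm : (A.card : ℝ) ≤ c * 2 ^ n :=
    le_trans (by exact_mod_cast Finset.card_le_card hAG) hG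
  set x : ℝ := A.card / 2 ^ n with hx
  have hx0 : 0 ≤ x := by positivity
  have hxc : x ≤ c := by
    rw [hx, div_le_iff₀ h2pos]; exact hAm
  have hAx : (A.card : ℝ) = x * 2 ^ n := by rw [hx]; field_simp
  set g : ℝ := ((goodSets G A 𝒳 δ).card : ℝ) with hg
  have hgx : g ≤ (x ^ 2 / 2 + η') * 4 ^ n := by
    have h1 : g ≤ (Cov A).card := by
      rw [hg]; exact_mod_cast Finset.card_le_card (goodSets_sub G A 𝒳 δ)
    have h2 : 2 * ((Cov A).card : ℝ) ≤ A.card * (A.card + 1) := by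
      have := cov_card_le A
      have : ((2 * (Cov A).card : ℕ) : ℝ) ≤ ((A.card * (A.card + 1) : ℕ) : ℝ) := by
        exact_mod_cast this
      push_cast at this; exact this
    rw [hAx] at h2
    have h3 : x * 2 ^ n ≤ 2 * η' * (2 ^ n * 2 ^ n) := by
      rw [div_le_iff₀ hη'0] at h2n
      have : x ≤ 2 * (η' * 2 ^ n) := by nlinarith
      calc x * 2 ^ n ≤ 2 * (η' * 2 ^ n) * 2 ^ n := mul_le_mul_of_nonneg_right this h2pos.le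
        _ = 2 * η' * (2 ^ n * 2 ^ n) := by ring
    rw [h4]
    nlinarith
  have hy1 : 1 - η' - (c - x) ^ 2 / 4 ≤ g / 4 ^ n := by
    rw [le_div_iff₀ h4pos]; exact hAc
  have hy2 : g / 4 ^ n ≤ x ^ 2 / 2 + η' := by
    rw [div_le_iff₀ h4pos]; exact hgx
  have hxbig := num_x hc hc2 hx0 hζ0 hη'2 hy1 hy2
  refine ⟨A, hAG, hAt, ?_, ?_, ?_⟩
  · rw [hAx]
    refine mul_le_mul_of_nonneg_right ?_ h2pos.le
    have : ζ ≤ η := by linarith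
    linarith
  · refine le_trans ?_ hAc
    refine mul_le_mul_of_nonneg_right ?_ h4pos.le
    exact num_y hc hc2 hxc hζ0 hζ1 hζη hη'1 hxbig
  · refine le_trans ?_ hAc
    refine mul_le_mul_of_nonneg_right ?_ h4pos.le
    have : η' ≤ η := by linarith
    linarith

end EM
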