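import Pool.Agent.Work.MP_2b8540_co.Moment

/-! the pair lemma: in a dense regular pair the avoidance profiles multiply to `1/2` -/

open Finset

namespace EM

variable {α : Type*} {N : ℕ}

lemma card_avo_le (v : α → Finset (Fin N)) (U : Finset α) (i : Fin N) :
    (avo v U i).card ≤ U.card := Finset.card_le_card (Finset.filter_subset _ _)

lemma av_nonneg (v : α → Finset (Fin N)) (U : Finset α) (i : Fin N) : 0 ≤ av v U i := by
  unfold av; positivity

lemma av_le_one (v : α → Finset (Fin N)) (U : Finset α) (i : Fin N) : av v U i ≤ 1 := by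
  unfold av
  exact div_le_one_of_le₀ (by exact_mod_cast card_avo_le v U i) (Nat.cast_nonneg _)

/-- number theoretic core of the pair lemma -/
lemma ratio_close {ε τ η cU cV A B Ai Bi d d' di ei e' : ℝ}
    (hε : 0 < ε) (hτ0 : 0 < τ) (hτ1 : τ ≤ 1) (hη0 : 0 < η) (hη1 : η ≤ 1)
    (hA : 0 < A) (hB : 0 < B) (hAi : 0 ≤ Ai) (hBi : 0 ≤ Bi) (hAiA : Ai ≤ A) (hBiB : Bi ≤ B)
    (hcU : τ * cU ≤ A) (hcV : τ * cV ≤ B)
    (hd' : |d' - d| < ε) (hd'2 : η / 2 ≤ d') (he' : e' = d' * (A * B))
    (hei : ei = di * (Ai * Bi)) (hei0 : 0 ≤ ei) (heile : ei ≤ Ai * Bi)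
    (hdi : cU * ε ≤ Ai → cV * ε ≤ Bi → |di - d| < ε) :
    |ei / e' - Ai / A * (Bi / B)| ≤ 4 * ε / (τ * η) := by
  have hd'0 : 0 < d' := by linarith
  have hu0 : 0 ≤ Ai / A := by positivity
  have hv0 : 0 ≤ Bi / B := by positivity
  have hu1 : Ai / A ≤ 1 := (div_le_one hA).mpr hAiA
  have hv1 : Bi / B ≤ 1 := (div_le_one hB).mpr hBiB
  have he'0 : 0 < e' := by rw [he']; positivity
  have hτη : 0 < τ * η := by positivity
  -- the easy bound in the sparse cases
  have small : ∀ w : ℝ, 0 ≤ w → w ≤ ε / τ → Ai / A * (Bi / B) ≤ w →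
      |ei / e' - Ai / A * (Bi / B)| ≤ 4 * ε / (τ * η) := by
    intro w hw0 hw hle
    have h1 : ei / e' ≤ w * (2 / η) := by
      have : ei / e' ≤ (Ai * Bi) / e' := by gcongr
      refine this.trans ?_
      rw [he']
      have e2 : Ai * Bi / (d' * (A * B)) = Ai / A * (Bi / B) * (1 / d') := by
        field_simp
      rw [e2]
      have : 1 / d' ≤ 2 / η := by
        rw [div_le_div_iff₀ hd'0 hη0]; linarith
      exact mul_le_mul hle this (by positivity) hw0
    have h2 : w * (2 / η) ≤ 2 * ε / (τ * η) := by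
      have : w * (2 / η) ≤ ε / τ * (2 / η) := by gcongr
      refine this.trans (le_of_eq ?_)
      field_simp
    have h3 : w ≤ 2 * ε / (τ * η) := by
      refine le_trans ?_ h2
      have : (1 : ℝ) ≤ 2 / η := by rw [le_div_iff₀ hη0]; linarith
      nlinarith
    have h4 : 2 * ε / (τ * η) ≤ 4 * ε / (τ * η) := by gcongr; norm_num
    have h5 : 0 ≤ ei / e' := by positivity
    have h6 : 0 ≤ Ai / A * (Bi / B) := by positivity
    rw [abs_le]
    constructor <;> linarith
  by_cases c1 : cU * ε ≤ Ai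
  · by_cases c2 : cV * ε ≤ Bi
    · have h1 := hdi c1 c2
      have h2 : |di - d'| ≤ 2 * ε := by
        have : di - d' = (di - d) - (d' - d) := by ring
        rw [this]
        exact (abs_sub _ _).trans (by linarith)
      have e3 : ei / e' - Ai / A * (Bi / B) = (Ai / A * (Bi / B)) * ((di - d') / d') := by
        rw [hei, he']
        field_simp
      rw [e3, abs_mul, abs_div, abs_of_pos hd'0, abs_of_nonneg (mul_nonneg hu0 hv0)]
      have h3 : Ai / A * (Bi / B) ≤ 1 := mul_le_one₀ hu1 hv0 hv1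
      calc Ai / A * (Bi / B) * (|di - d'| / d') ≤ 1 * (2 * ε / (η / 2)) := by
            apply mul_le_mul h3 _ (by positivity) zero_le_one
            exact div_le_div₀ (by positivity) h2 (by positivity) hd'2
        _ = 4 * ε / η := by field_simp; ring
        _ ≤ 4 * ε / (τ * η) := by
            apply div_le_div_of_nonneg_left (by positivity) hτη
            nlinarith
    · rw [not_le] at c2
      refine small (Bi / B) hv0 ?_ ?_
      · rw [div_le_div_iff₀ hB hτ0]
        nlinarith
      · exact mul_le_of_le_one_left hv0 hu1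
  · rw [not_le] at c1
    refine small (Ai / A) hu0 ?_ ?_
    · rw [div_le_div_iff₀ hA hτ0]
      nlinarith
    · exact mul_le_of_le_one_right hu0 hv1

lemma card_interedges_real (H : SimpleGraph α) [DecidableRel H.Adj] (s t : Finset α) :
    ((H.interedges s t).card : ℝ) = (H.edgeDensity s t : ℝ) * ((s.card : ℝ) * t.card) := by
  rw [← SimpleGraph.card_interedges_div_card]
  push_cast
  by_cases h : (s.card : ℝ) * t.card = 0
  · have h1 := H.card_interedges_le_mul s t
    have h2 : ((H.interedges s t).card : ℝ) ≤ (s.card : ℝ) * t.card := by exact_mod_cast h1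
    rw [h] at h2 ⊢
    have h3 : (0 : ℝ) ≤ ((H.interedges s t).card : ℝ) := Nat.cast_nonneg _
    rw [mul_zero]; linarith
  · rw [div_mul_cancel₀ _ h]

theorem pair_lemma [DecidableEq α] {H : SimpleGraph α} [DecidableRel H.Adj] {v : α → Finset (Fin N)}
    (hUU : UU H v) {U V U' V' : Finset α} {ε τ η κ₀ : ℝ} (hdisj : Disjoint U V)
    (hε : 0 < ε) (hετ : ε ≤ τ) (hτ1 : τ ≤ 1) (hη0 : 0 < η) (hεη : ε ≤ η / 2) (hη1 : η ≤ 1)
    (hunif : H.IsUniform ε U V) (hd : η ≤ (H.edgeDensity U V : ℝ))
    (hU' : U' ⊆ U) (hV' : V' ⊆ V) (hcU : τ * U.card ≤ U'.card) (hcV : τ * V.card ≤ V'.card)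
    (hκ₀ : 0 < κ₀) (hbig : κ₀ * 2 ^ N ≤ (η / 2) * ((τ * U.card) * (τ * V.card))) :
    pdev v U' V' ≤ (4 * ε / (τ * η)) * N + 1 / 2 * √(N / κ₀) := by
  classical
  have hτ0 : 0 < τ := lt_of_lt_of_le hε hετ
  have hpos : 0 < (τ * (U.card : ℝ)) * (τ * V.card) := by
    have : 0 < κ₀ * 2 ^ N := by positivity
    by_contra h
    rw [not_lt] at h
    nlinarith
  have hUc : 0 < (U.card : ℝ) := by
    rcases Nat.eq_zero_or_pos U.card with h | h
    · rw [h] at hpos; simp at hpos
    · exact_mod_cast h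
  have hVc : 0 < (V.card : ℝ) := by
    rcases Nat.eq_zero_or_pos V.card with h | h
    · rw [h] at hpos; simp at hpos
    · exact_mod_cast h
  have hA : 0 < (U'.card : ℝ) := lt_of_lt_of_le (by positivity) hcU
  have hB : 0 < (V'.card : ℝ) := lt_of_lt_of_le (by positivity) hcV
  set T : Finset (Finset (Fin N)) := (H.interedges U' V').image fun p => v p.1 ∪ v p.2 with hT
  have hinj : Set.InjOn (fun p : α × α => v p.1 ∪ v p.2) (H.interedges U' V' : Set (α × α)) := by
    intro p hp p' hp' he
    rw [Finset.mem_coe, SimpleGraph.mem_interedges_iff] at hp hp'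
    rcases hUU p.1 p.2 p'.1 p'.2 hp.2.2 hp'.2.2 he with h | h
    · exact Prod.ext h.1 h.2
    · exfalso
      have h1 : p.1 ∈ U := hU' hp.1
      have h2 : p.1 ∈ V := by rw [h.1]; exact hV' hp'.2.1
      exact (Finset.disjoint_left.mp hdisj) h1 h2
  have hTcard : T.card = (H.interedges U' V').card := Finset.card_image_of_injOn hinj
  have hTi : ∀ i : Fin N, (T.filter fun S => i ∉ S).card =
      (H.interedges (avo v U' i) (avo v V' i)).card := by
    intro i
    have : T.filter (fun S => i ∉ S) =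
        (H.interedges (avo v U' i) (avo v V' i)).image fun p => v p.1 ∪ v p.2 := by
      ext S
      simp only [hT, Finset.mem_filter, Finset.mem_image, SimpleGraph.mem_interedges_iff, avo]
      constructor
      · rintro ⟨⟨p, ⟨h1, h2, h3⟩, rfl⟩, h4⟩
        rw [Finset.mem_union, not_or] at h4
        exact ⟨p, ⟨⟨h1, h4.1⟩, ⟨h2, h4.2⟩, h3⟩, rfl⟩
      · rintro ⟨p, ⟨⟨h1, h4⟩, ⟨h2, h5⟩, h3⟩, rfl⟩
        refine ⟨⟨p, ⟨h1, h2, h3⟩, rfl⟩, ?_⟩
        rw [Finset.mem_union, not_or]
        exact ⟨h4, h5⟩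
    rw [this]
    refine Finset.card_image_of_injOn (hinj.mono ?_)
    intro p hp
    rw [Finset.mem_coe, SimpleGraph.mem_interedges_iff] at hp ⊢
    exact ⟨(Finset.mem_filter.mp hp.1).1, (Finset.mem_filter.mp hp.2.1).1, hp.2.2⟩
  set e' : ℝ := ((H.interedges U' V').card : ℝ) with he'
  set d' : ℝ := (H.edgeDensity U' V' : ℝ) with hd'def
  set d : ℝ := (H.edgeDensity U V : ℝ) with hddef
  have hdd' : |d' - d| < ε := by
    refine hunif hU' hV' ?_ ?_
    · refine le_trans ?_ hcU
      rw [mul_comm]; gcongr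
    · refine le_trans ?_ hcV
      rw [mul_comm]; gcongr
  have hd'2 : η / 2 ≤ d' := by
    have := (abs_lt.mp hdd').1
    linarith
  have he'eq : e' = d' * ((U'.card : ℝ) * V'.card) := card_interedges_real H U' V'
  have he'big : κ₀ * 2 ^ N ≤ e' := by
    refine hbig.trans ?_
    rw [he'eq]
    have : (τ * (U.card : ℝ)) * (τ * V.card) ≤ (U'.card : ℝ) * V'.card := by gcongr
    exact mul_le_mul hd'2 this hpos.le (by linarith)
  have he'0 : 0 < e' := lt_of_lt_of_le (by positivity) he'big
  -- the pointwise estimate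
  have hpt : ∀ i : Fin N, |av v U' i * av v V' i - 1 / 2| ≤
      4 * ε / (τ * η) + 1 / e' * |((T.filter fun S => i ∉ S).card : ℝ) - T.card / 2| := by
    intro i
    have hrc := ratio_close (ε := ε) (τ := τ) (η := η) (cU := (U.card : ℝ)) (cV := (V.card : ℝ))
      (A := (U'.card : ℝ)) (B := (V'.card : ℝ)) (Ai := ((avo v U' i).card : ℝ))
      (Bi := ((avo v V' i).card : ℝ)) (d := d) (d' := d')
      (di := (H.edgeDensity (avo v U' i) (avo v V' i) : ℝ))
      (ei := ((H.interedges (avo v U' i) (avo v V' i)).card : ℝ)) (e' := e')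
      hε hτ0 hτ1 hη0 hη1 hA hB (Nat.cast_nonneg _) (Nat.cast_nonneg _)
      (by exact_mod_cast card_avo_le v U' i) (by exact_mod_cast card_avo_le v V' i)
      hcU hcV hdd' hd'2 he'eq (card_interedges_real H _ _) (Nat.cast_nonneg _)
      (by exact_mod_cast H.card_interedges_le_mul _ _)
      (by
        intro h1 h2
        exact hunif ((Finset.filter_subset _ _).trans hU') ((Finset.filter_subset _ _).trans hV')
          h1 h2)
    rw [hTi i, hTcard, ← he']
    have e1 : 1 / e' * |((H.interedges (avo v U' i) (avo v V' i)).card : ℝ) - e' / 2| =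
        |((H.interedges (avo v U' i) (avo v V' i)).card : ℝ) / e' - 1 / 2| := by
      rw [← abs_of_pos (show (0 : ℝ) < 1 / e' by positivity), ← abs_mul]
      congr 1
      field_simp
    rw [e1]
    unfold av
    set x := ((H.interedges (avo v U' i) (avo v V' i)).card : ℝ) / e' with hx
    set y := ((avo v U' i).card : ℝ) / (U'.card : ℝ) * (((avo v V' i).card : ℝ) / (V'.card : ℝ))
      with hy
    have : y - 1 / 2 = -(x - y) + (x - 1 / 2) := by ring
    rw [this]
    refine (abs_add_le _ _).trans ?_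
    rw [abs_neg]
    linarith
  unfold pdev
  calc ∑ i : Fin N, |av v U' i * av v V' i - 1 / 2|
      ≤ ∑ i : Fin N, (4 * ε / (τ * η) +
          1 / e' * |((T.filter fun S => i ∉ S).card : ℝ) - T.card / 2|) :=
        Finset.sum_le_sum fun i _ => hpt i
    _ = (4 * ε / (τ * η)) * N +
          1 / e' * ∑ i : Fin N, |((T.filter fun S => i ∉ S).card : ℝ) - T.card / 2| := by
        rw [Finset.sum_add_distrib, ← Finset.mul_sum, Finset.sum_const, Finset.card_univ,
          Fintype.card_fin, nsmul_eq_mul]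
        ring
    _ ≤ (4 * ε / (τ * η)) * N + 1 / 2 * √(N / κ₀) := by
        have hb := balance T
        rw [hTcard, ← he'] at hb
        rw [hTcard, ← he']
        have h1 : 1 / e' * ∑ i : Fin N, |((T.filter fun S => i ∉ S).card : ℝ) - e' / 2| ≤
            1 / e' * (1 / 2 * √(e' * (N * 2 ^ N))) :=
          mul_le_mul_of_nonneg_left hb (by positivity)
        have h2 : 1 / e' * (1 / 2 * √(e' * (N * 2 ^ N))) ≤ 1 / 2 * √(N / κ₀) := by
          have e3 : 1 / e' * (1 / 2 * √(e' * (N * 2 ^ N))) =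
              1 / 2 * (√(e' * (N * 2 ^ N)) / e') := by ring
          rw [e3]
          have e4 : √(e' * (N * 2 ^ N)) / e' = √((N * 2 ^ N) / e') := by
            rw [Real.sqrt_mul he'0.le, Real.sqrt_div (by positivity)]
            have hs : √e' * √e' = e' := Real.mul_self_sqrt he'0.le
            have hs0 : √e' ≠ 0 := (Real.sqrt_pos.mpr he'0).ne'
            field_simp
            rw [sq, hs]
            ring
          rw [e4]
          refine mul_le_mul_of_nonneg_left (Real.sqrt_le_sqrt ?_) (by norm_num)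
          rw [div_le_div_iff₀ he'0 hκ₀]
          have : (N : ℝ) * (κ₀ * 2 ^ N) ≤ N * e' :=
            mul_le_mul_of_nonneg_left he'big (Nat.cast_nonneg _)
          linarith
        linarith

end EM
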