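import Pool.Agent.Work.MP_2b8540_co.Pair

/-! profiles: neighbours of random-like cells, triangles, and typicality of most members -/

open Finset

namespace EM

variable {α : Type*} {N : ℕ}

lemma num_adj {u w : ℝ} (hw0 : 0 ≤ w) (hw1 : w ≤ 1) :
    |w - q| ≤ 3 / 2 * (|u * w - 1 / 2| + |u - q|) := by
  have hq := q_pos
  have hqs := q_sq
  have h1 : q * |w - q| ≤ |u * w - 1 / 2| + |u - q| := by
    rw [← abs_of_pos hq, ← abs_mul, abs_of_pos hq]
    have e : q * (w - q) = (u * w - 1 / 2) + (-(u - q)) * w := by nlinarith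
    rw [e]
    refine (abs_add_le _ _).trans ?_
    rw [abs_mul, abs_neg, abs_of_nonneg hw0]
    have : |u - q| * w ≤ |u - q| * 1 := mul_le_mul_of_nonneg_left hw1 (abs_nonneg _)
    linarith
  have h2 : (2 / 3 : ℝ) ≤ q := by have := q_gt; linarith
  have h3 : 2 / 3 * |w - q| ≤ q * |w - q| := mul_le_mul_of_nonneg_right h2 (abs_nonneg _)
  linarith

lemma num_tri {u v w : ℝ} (hu0 : 0 ≤ u) (hu1 : u ≤ 1) (hw0 : 0 ≤ w) (hw1 : w ≤ 1) :
    |u - q| ≤ 3 * (|u * v - 1 / 2| + |u * w - 1 / 2| + |v * w - 1 / 2|) := by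
  have hq := q_pos
  have hqs := q_sq
  have h1 : |u ^ 2 - 1 / 2| ≤ 2 * (|u * v - 1 / 2| + |u * w - 1 / 2| + |v * w - 1 / 2|) := by
    have e : u ^ 2 - 1 / 2 = 2 * (-(u ^ 2 * (v * w - 1 / 2)) + (u * v - 1 / 2) * (u * w) +
        1 / 2 * (u * w - 1 / 2)) := by ring
    rw [e, abs_mul, abs_of_pos (by norm_num : (0 : ℝ) < 2)]
    refine mul_le_mul_of_nonneg_left ?_ (by norm_num)
    refine (abs_add_le _ _).trans ?_
    have h2 : |-(u ^ 2 * (v * w - 1 / 2)) + (u * v - 1 / 2) * (u * w)| ≤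
        |v * w - 1 / 2| + |u * v - 1 / 2| := by
      refine (abs_add_le _ _).trans ?_
      rw [abs_neg, abs_mul, abs_mul, abs_of_nonneg (sq_nonneg u), abs_of_nonneg (mul_nonneg hu0 hw0)]
      have h3 : u ^ 2 * |v * w - 1 / 2| ≤ 1 * |v * w - 1 / 2| :=
        mul_le_mul_of_nonneg_right (by nlinarith) (abs_nonneg _)
      have h4 : |u * v - 1 / 2| * (u * w) ≤ |u * v - 1 / 2| * 1 :=
        mul_le_mul_of_nonneg_left (mul_le_one₀ hu1 hw0 hw1) (abs_nonneg _)
      linarith
    have h5 : |1 / 2 * (u * w - 1 / 2)| ≤ |u * w - 1 / 2| := by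
      rw [abs_mul, abs_of_pos (by norm_num : (0 : ℝ) < 1 / 2)]
      have := abs_nonneg (u * w - 1 / 2)
      linarith
    linarith
  have h2 : |u - q| * (u + q) = |u ^ 2 - 1 / 2| := by
    have hpos : 0 < u + q := by linarith
    have e : u ^ 2 - 1 / 2 = (u - q) * (u + q) := by nlinarith
    rw [e, abs_mul, abs_of_pos hpos]
  have h3 : (2 / 3 : ℝ) ≤ u + q := by have := q_gt; linarith
  have h4 : |u - q| * (2 / 3) ≤ |u - q| * (u + q) := mul_le_mul_of_nonneg_left h3 (abs_nonneg _)
  linarith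

lemma dev_adj (v : α → Finset (Fin N)) (U V : Finset α) :
    dev v V ≤ 3 / 2 * (pdev v U V + dev v U) := by
  unfold dev pdev
  rw [← Finset.sum_add_distrib, Finset.mul_sum]
  refine Finset.sum_le_sum fun i _ => ?_
  exact num_adj (av_nonneg v V i) (av_le_one v V i)

lemma dev_tri (v : α → Finset (Fin N)) (U V W : Finset α) :
    dev v U ≤ 3 * (pdev v U V + pdev v U W + pdev v V W) := by
  unfold dev pdev
  rw [← Finset.sum_add_distrib, ← Finset.sum_add_distrib, Finset.mul_sum]
  refine Finset.sum_le_sum fun i _ => ?_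
  exact num_tri (av_nonneg v U i) (av_le_one v U i) (av_nonneg v W i) (av_le_one v W i)

lemma pdev_comm (v : α → Finset (Fin N)) (U V : Finset α) : pdev v U V = pdev v V U := by
  unfold pdev
  refine Finset.sum_congr rfl fun i _ => ?_
  rw [mul_comm]

/-- the average size of `X ∩ v a` over `a ∈ U` -/
lemma avg_inter (v : α → Finset (Fin N)) (U : Finset α) (hU : 0 < U.card) (X : Finset (Fin N)) :
    ∑ a ∈ U, (((v a ∩ X).card : ℝ) - (1 - q) * X.card) =
      U.card * ∑ i ∈ X, (q - av v U i) := by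
  classical
  have hUr : (U.card : ℝ) ≠ 0 := by exact_mod_cast hU.ne'
  rw [Finset.sum_sub_distrib, Finset.sum_sub_distrib, Finset.sum_const, Finset.sum_const,
    nsmul_eq_mul, nsmul_eq_mul]
  have h1 : ∑ a ∈ U, ((v a ∩ X).card : ℝ) = ∑ i ∈ X, ((U.card : ℝ) - (avo v U i).card) := by
    have h2 : ∀ a ∈ U, ((v a ∩ X).card : ℝ) = ∑ i ∈ X, (if i ∈ v a then (1 : ℝ) else 0) := by
      intro a _
      rw [Finset.inter_comm, ← Finset.filter_mem_eq_inter, Finset.card_filter]
      push_cast
      rfl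
    rw [Finset.sum_congr rfl h2, Finset.sum_comm]
    refine Finset.sum_congr rfl fun i _ => ?_
    have h3 : (U.card : ℝ) = ((U.filter fun a => i ∈ v a).card : ℝ) + ((avo v U i).card : ℝ) := by
      unfold avo
      rw [← Nat.cast_add, Finset.card_filter_add_card_filter_not]
    rw [h3, Finset.card_filter]
    push_cast
    ring
  rw [h1, Finset.sum_sub_distrib, Finset.sum_const, nsmul_eq_mul]
  have h4 : ∑ i ∈ X, ((avo v U i).card : ℝ) = U.card * ∑ i ∈ X, av v U i := by
    rw [Finset.mul_sum]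
    refine Finset.sum_congr rfl fun i _ => ?_
    unfold av
    field_simp
  rw [h4]
  ring

lemma abs_sum_le_dev (v : α → Finset (Fin N)) (U : Finset α) (X : Finset (Fin N)) :
    |∑ i ∈ X, (q - av v U i)| ≤ dev v U := by
  unfold dev
  refine (Finset.abs_sum_le_sum_abs _ _).trans ?_
  refine (Finset.sum_le_sum_of_subset_of_nonneg (Finset.subset_univ X)
    fun _ _ _ => abs_nonneg _).trans ?_
  refine le_of_eq (Finset.sum_congr rfl fun i _ => abs_sub_comm _ _)

/-- In a dense regular pair `(U,V)` with `V` of profile close to `q`, all but few members of `U` are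
typical with respect to any given test set. -/
theorem typical [DecidableEq α] {H : SimpleGraph α} [DecidableRel H.Adj]
    {v : α → Finset (Fin N)} (hUU : UU H v) {U V : Finset α} {ε τ η κ₀ θ δ : ℝ}
    (hdisj : Disjoint U V) (hε : 0 < ε) (hετ : ε ≤ τ) (hτ1 : τ ≤ 1) (hη0 : 0 < η)
    (hεη : ε ≤ η / 2) (hη1 : η ≤ 1) (hunif : H.IsUniform ε U V)
    (hd : η ≤ (H.edgeDensity U V : ℝ)) (hκ₀ : 0 < κ₀)
    (hbig : κ₀ * 2 ^ N ≤ (η / 2) * ((τ * U.card) * (τ * V.card)))
    (hθ : (4 * ε / (τ * η)) * N + 1 / 2 * √(N / κ₀) ≤ θ * N) (hV : dev v V ≤ θ * N)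
    (hδ : 3 * θ ≤ δ) (X : Finset (Fin N)) :
    ((U.filter fun a => ¬ Typ v δ X a).card : ℝ) ≤ 2 * τ * U.card := by
  classical
  have hτ0 : 0 < τ := lt_of_lt_of_le hε hετ
  -- the two halves
  set Up : Finset α := U.filter fun a => δ * N < ((v a ∩ X).card : ℝ) - (1 - q) * X.card with hUp
  set Um : Finset α := U.filter fun a => ((v a ∩ X).card : ℝ) - (1 - q) * X.card < -(δ * N) with hUm
  have key : ∀ W : Finset α, W ⊆ U → τ * U.card ≤ W.card → 0 < W.card →
      |∑ i ∈ X, (q - av v W i)| ≤ δ * N := by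
    intro W hWU hcW _
    have h1 := pair_lemma hUU hdisj hε hετ hτ1 hη0 hεη hη1 hunif hd hWU (Finset.Subset.refl V) hcW
      (by nlinarith [show (0 : ℝ) ≤ V.card from Nat.cast_nonneg _]) hκ₀ hbig
    have h2 := dev_adj v V W
    rw [pdev_comm] at h2
    have h3 : dev v W ≤ δ * N := by
      have h4 : dev v W ≤ 3 * θ * N := by nlinarith
      refine h4.trans ?_
      gcongr
    exact (abs_sum_le_dev v W X).trans h3
  have hUc : 0 < U.card := by
    rcases Nat.eq_zero_or_pos U.card with h | h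
    · exfalso
      rw [h] at hbig
      have : 0 < κ₀ * 2 ^ N := by positivity
      simp at hbig
      linarith
    · exact h
  have hUcr : (0 : ℝ) < U.card := by exact_mod_cast hUc
  have hp : (Up.card : ℝ) < τ * U.card := by
    by_contra hcon
    rw [not_lt] at hcon
    have hpos : 0 < Up.card := by
      have : (0 : ℝ) < Up.card := lt_of_lt_of_le (by positivity) hcon
      exact_mod_cast this
    have h1 := key Up (Finset.filter_subset _ _) hcon hpos
    have h2 := avg_inter v Up hpos X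
    have h3 : ∑ a ∈ Up, (((v a ∩ X).card : ℝ) - (1 - q) * X.card) > ∑ _a ∈ Up, δ * N := by
      refine Finset.sum_lt_sum_of_nonempty (Finset.card_pos.mp hpos) fun a ha => ?_
      exact (Finset.mem_filter.mp ha).2
    rw [h2, Finset.sum_const, nsmul_eq_mul] at h3
    have h4 : δ * N < ∑ i ∈ X, (q - av v Up i) := by
      have hposr : (0 : ℝ) < Up.card := by exact_mod_cast hpos
      exact lt_of_mul_lt_mul_left h3 hposr.le
    have h5 := (abs_le.mp h1).2
    linarith
  have hm : (Um.card : ℝ) < τ * U.card := by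
    by_contra hcon
    rw [not_lt] at hcon
    have hpos : 0 < Um.card := by
      have : (0 : ℝ) < Um.card := lt_of_lt_of_le (by positivity) hcon
      exact_mod_cast this
    have h1 := key Um (Finset.filter_subset _ _) hcon hpos
    have h2 := avg_inter v Um hpos X
    have h3 : ∑ a ∈ Um, (((v a ∩ X).card : ℝ) - (1 - q) * X.card) < ∑ _a ∈ Um, -(δ * N) := by
      refine Finset.sum_lt_sum_of_nonempty (Finset.card_pos.mp hpos) fun a ha => ?_
      exact (Finset.mem_filter.mp ha).2
    rw [h2, Finset.sum_const, nsmul_eq_mul] at h3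
    have h4 : ∑ i ∈ X, (q - av v Um i) < -(δ * N) := by
      have hposr : (0 : ℝ) < Um.card := by exact_mod_cast hpos
      exact lt_of_mul_lt_mul_left h3 hposr.le
    have h5 := (abs_le.mp h1).1
    linarith
  have hsub : (U.filter fun a => ¬ Typ v δ X a) ⊆ Up ∪ Um := by
    intro a ha
    rw [Finset.mem_filter] at ha
    rw [Finset.mem_union]
    obtain ⟨haU, hat⟩ := ha
    unfold Typ at hat
    rw [not_le, lt_abs] at hat
    rcases hat with h | h
    · left; exact Finset.mem_filter.mpr ⟨haU, h⟩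
    · right; exact Finset.mem_filter.mpr ⟨haU, by linarith⟩
  have hc : ((U.filter fun a => ¬ Typ v δ X a).card : ℝ) ≤ Up.card + Um.card := by
    exact_mod_cast (Finset.card_le_card hsub).trans (Finset.card_union_le _ _)
  linarith

end EM
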