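import Mathlib

/-! counting the pairs lost in the reduced graph, Mantel's theorem on a subset, pigeonhole -/

open Finset

namespace EM

variable {α : Type*} [Fintype α] [DecidableEq α]

lemma unreduced_subset (G : SimpleGraph α) [DecidableRel G.Adj]
    (P : Finpartition (Finset.univ : Finset α)) (ε η : ℝ) :
    (Finset.univ.filter fun p : α × α => G.Adj p.1 p.2 ∧ ¬ (G.regularityReduced P ε η).Adj p.1 p.2) ⊆
      (P.nonUniforms G ε).biUnion (fun (U, V) ↦ U ×ˢ V) ∪ P.parts.biUnion offDiag ∪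
        (P.sparsePairs G η).biUnion fun (U, V) ↦ G.interedges U V := by
  rintro ⟨x, y⟩
  simp only [mem_filter, SimpleGraph.regularityReduced_adj, not_and, not_exists,
    not_le, mem_biUnion, mem_union, mem_product, Prod.exists, mem_offDiag, and_imp,
    or_assoc, and_assoc, P.mk_mem_nonUniforms, Finpartition.mk_mem_sparsePairs,
    SimpleGraph.mem_interedges_iff]
  intro _ h h'
  replace h' := h' h
  obtain ⟨U, hU, hx⟩ := P.exists_mem (Finset.mem_univ x)
  obtain ⟨V, hV, hy⟩ := P.exists_mem (Finset.mem_univ y)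
  obtain rfl | hUV := eq_or_ne U V
  · exact Or.inr (Or.inl ⟨U, hU, hx, hy, G.ne_of_adj h⟩)
  by_cases h₂ : G.IsUniform ε U V
  · exact Or.inr <| Or.inr ⟨U, V, hU, hV, hUV, h' _ hU _ hV hx hy hUV h₂, hx, hy, h⟩
  · exact Or.inl ⟨U, V, hU, hV, hUV, h₂, hx, hy⟩

theorem unreduced_card [Nonempty α] (G : SimpleGraph α) [DecidableRel G.Adj]
    (P : Finpartition (Finset.univ : Finset α)) {ε ε₁ η : ℝ} (hε : 0 < ε) (hε₁ : 0 < ε₁)
    (hη : 0 ≤ η) (hP : P.IsEquipartition) (hPu : P.IsUniform G ε)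
    (hparts : 4 / ε₁ ≤ (P.parts.card : ℝ)) :
    ((Finset.univ.filter fun p : α × α =>
      G.Adj p.1 p.2 ∧ ¬ (G.regularityReduced P ε η).Adj p.1 p.2).card : ℝ) ≤
      (4 * ε + ε₁ / 2 + 4 * η) * (Fintype.card α : ℝ) ^ 2 := by
  classical
  have h0 := Finset.card_le_card (unreduced_subset G P ε η)
  set A := (P.nonUniforms G ε).biUnion (fun (U, V) ↦ U ×ˢ V) with hA
  set B := P.parts.biUnion offDiag with hB
  set C := (P.sparsePairs G η).biUnion (fun (U, V) ↦ G.interedges U V) with hC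
  have h1 : ((Finset.univ.filter fun p : α × α =>
      G.Adj p.1 p.2 ∧ ¬ (G.regularityReduced P ε η).Adj p.1 p.2).card : ℝ) ≤
      (A.card : ℝ) + B.card + C.card := by
    have h2 : (A ∪ B ∪ C).card ≤ A.card + B.card + C.card :=
      (Finset.card_union_le _ _).trans (Nat.add_le_add_right (Finset.card_union_le _ _) _)
    exact_mod_cast h0.trans h2
  have hA' : (A.card : ℝ) < 4 * ε * ((Finset.univ : Finset α).card : ℝ) ^ 2 :=
    hP.sum_nonUniforms_lt univ_nonempty hε hPu
  have hB' : (B.card : ℝ) ≤ ε₁ / 2 * ((Finset.univ : Finset α).card : ℝ) ^ 2 :=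
    hP.card_biUnion_offDiag_le hε₁ hparts
  have hC' : (C.card : ℝ) ≤ 4 * η * ((Finset.univ : Finset α).card : ℝ) ^ 2 :=
    hP.card_interedges_sparsePairs_le (G := G) hη
  rw [Finset.card_univ] at hA' hB' hC'
  nlinarith

omit [DecidableEq α] in
/-- Mantel's theorem for a triangle-free graph all of whose edges lie inside `B` -/
theorem mantel_on (K : SimpleGraph α) [DecidableRel K.Adj] (B : Finset α)
    (hB : ∀ a b, K.Adj a b → a ∈ B)
    (htri : ∀ a b c, K.Adj a b → K.Adj a c → K.Adj b c → False) :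
    ((Finset.univ.filter fun p : α × α => K.Adj p.1 p.2).card : ℝ) ≤ (B.card : ℝ) ^ 2 / 2 := by
  classical
  set N : α → Finset α := fun x => Finset.univ.filter fun y => K.Adj x y with hN
  set d : α → ℝ := fun x => ((N x).card : ℝ) with hd
  set e : ℝ := ((Finset.univ.filter fun p : α × α => K.Adj p.1 p.2).card : ℝ) with he
  have hNB : ∀ x, N x ⊆ B := by
    intro x y hy
    exact hB y x (Finset.mem_filter.mp hy).2.symm
  have hdzero : ∀ x, x ∉ B → d x = 0 := by
    intro x hx
    simp only [hd, Nat.cast_eq_zero, Finset.card_eq_zero, hN]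
    refine Finset.filter_eq_empty_iff.mpr fun y _ h => hx (hB x y h)
  have hsum : e = ∑ x, d x := by
    simp only [he, hd, hN]
    rw [Finset.card_filter, ← Finset.univ_product_univ, Finset.sum_product]
    push_cast
    refine Finset.sum_congr rfl fun x _ => ?_
    rw [Finset.card_filter]
    push_cast
    rfl
  have hsumB : ∑ x, d x = ∑ x ∈ B, d x := by
    symm
    refine Finset.sum_subset (Finset.subset_univ B) fun x _ hx => hdzero x hx
  have hadj : ∀ x y, K.Adj x y → d x + d y ≤ B.card := by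
    intro x y hxy
    have hdis : Disjoint (N x) (N y) := by
      rw [Finset.disjoint_left]
      intro z hz hz'
      exact htri x y z hxy (Finset.mem_filter.mp hz).2 (Finset.mem_filter.mp hz').2
    have := Finset.card_le_card (Finset.union_subset (hNB x) (hNB y))
    rw [Finset.card_union_of_disjoint hdis] at this
    simp only [hd]
    exact_mod_cast this
  -- double count
  have hd2 : ∑ x, ∑ y ∈ N x, (d x + d y) = 2 * ∑ x, d x ^ 2 := by
    have h1 : ∀ x, ∑ y ∈ N x, (d x + d y) = d x ^ 2 + ∑ y ∈ N x, d y := by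
      intro x
      rw [Finset.sum_add_distrib, Finset.sum_const, nsmul_eq_mul]
      simp only [hd]; ring
    rw [Finset.sum_congr rfl fun x _ => h1 x, Finset.sum_add_distrib]
    have h2 : ∑ x, ∑ y ∈ N x, d y = ∑ x, d x ^ 2 := by
      simp only [hN, Finset.sum_filter]
      rw [Finset.sum_comm]
      refine Finset.sum_congr rfl fun y _ => ?_
      rw [← Finset.sum_filter, Finset.sum_const, nsmul_eq_mul]
      have : (Finset.univ.filter fun x => K.Adj x y) = N y := by
        ext z; simp [hN, K.adj_comm]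
      rw [this]
      simp only [hd]; ring
    rw [h2]; ring
  have hle : ∑ x, ∑ y ∈ N x, (d x + d y) ≤ B.card * e := by
    calc ∑ x, ∑ y ∈ N x, (d x + d y) ≤ ∑ x, ∑ _y ∈ N x, (B.card : ℝ) := by
          refine Finset.sum_le_sum fun x _ => Finset.sum_le_sum fun y hy => ?_
          exact hadj x y (Finset.mem_filter.mp hy).2
      _ = ∑ x, d x * B.card := by
          refine Finset.sum_congr rfl fun x _ => ?_
          rw [Finset.sum_const, nsmul_eq_mul]
      _ = B.card * e := by rw [← Finset.sum_mul, hsum]; ring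
  have hcs : (∑ x ∈ B, d x) ^ 2 ≤ B.card * ∑ x ∈ B, d x ^ 2 := sq_sum_le_card_mul_sum_sq
  have hsq : ∑ x ∈ B, d x ^ 2 ≤ ∑ x, d x ^ 2 :=
    Finset.sum_le_sum_of_subset_of_nonneg (Finset.subset_univ _) fun _ _ _ => sq_nonneg _
  have hBc : (0 : ℝ) ≤ B.card := Nat.cast_nonneg _
  have he0 : 0 ≤ e := Nat.cast_nonneg _
  have h3 : e ^ 2 ≤ B.card * ∑ x, d x ^ 2 := by
    rw [hsum, hsumB]
    exact hcs.trans (mul_le_mul_of_nonneg_left hsq hBc)
  have h4 : 2 * e ^ 2 ≤ (B.card : ℝ) ^ 2 * e := by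
    have : 2 * ∑ x, d x ^ 2 ≤ B.card * e := by rw [← hd2]; exact hle
    nlinarith
  rcases eq_or_lt_of_le he0 with h5 | h5
  · rw [← h5]; positivity
  · have h6 : e * (2 * e) ≤ e * (B.card : ℝ) ^ 2 := by nlinarith
    have h7 := le_of_mul_le_mul_left h6 h5
    linarith

/-- pigeonhole for increasing sequences -/
theorem exists_small_step (w : ℕ → ℝ) (L : ℕ) (hL : 1 ≤ L) (m : ℝ) (h0 : 0 ≤ w 0)
    (hm : w L ≤ m) : ∃ j < L, w (j + 1) - w j ≤ m / L := by
  by_contra hcon
  push Not at hcon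
  have h1 : ∑ j ∈ Finset.range L, (w (j + 1) - w j) = w L - w 0 := Finset.sum_range_sub w L
  have hLr : (0 : ℝ) < L := by exact_mod_cast hL
  have h2 : ∑ _j ∈ Finset.range L, m / L < ∑ j ∈ Finset.range L, (w (j + 1) - w j) :=
    Finset.sum_lt_sum_of_nonempty (by simpa using Nat.one_le_iff_ne_zero.mp hL)
      fun j hj => hcon j (Finset.mem_range.mp hj)
  rw [h1, Finset.sum_const, Finset.card_range, nsmul_eq_mul, mul_div_cancel₀ _ hLr.ne'] at h2
  linarith

end EM
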