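import Pool.Agent.Work.MP_2b8540_co.Profile
import Pool.Agent.Work.MP_2b8540_co.RegCount

/-! the random-like part of a graph with unique unions -/

open Finset

namespace EM

variable {α : Type*} [Fintype α] [DecidableEq α] {N : ℕ}

/-- dense regular pair of parts -/
def Good (H : SimpleGraph α) [DecidableRel H.Adj] (P : Finpartition (Finset.univ : Finset α))
    (ε η : ℝ) (U V : Finset α) : Prop :=
  U ∈ P.parts ∧ V ∈ P.parts ∧ U ≠ V ∧ H.IsUniform ε U V ∧ η ≤ (H.edgeDensity U V : ℝ)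

lemma Good.symm {H : SimpleGraph α} [DecidableRel H.Adj]
    {P : Finpartition (Finset.univ : Finset α)} {ε η : ℝ} {U V : Finset α}
    (h : Good H P ε η U V) : Good H P ε η V U := by
  obtain ⟨h1, h2, h3, h4, h5⟩ := h
  refine ⟨h2, h1, h3.symm, h4.symm, ?_⟩
  rwa [SimpleGraph.edgeDensity_comm]

/-- the parts with profile close to `q` which have a good neighbour -/
noncomputable def Rset (H : SimpleGraph α) [DecidableRel H.Adj]
    (P : Finpartition (Finset.univ : Finset α)) (ε η θ : ℝ) (v : α → Finset (Fin N)) (j : ℕ) :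
    Finset (Finset α) :=
  open Classical in
  P.parts.filter fun U => dev v U ≤ 3 ^ (j + 2) * θ * N ∧ ∃ V, Good H P ε η U V

theorem structure_thm {H : SimpleGraph α} [DecidableRel H.Adj] {v : α → Finset (Fin N)}
    (hUU : UU H v) [Nonempty α] (P : Finpartition (Finset.univ : Finset α))
    {ε ε₁ τ η κ₀ θ δ : ℝ} (hε : 0 < ε) (hε₁ : 0 < ε₁) (hετ : ε ≤ τ) (hτ1 : τ ≤ 1) (hη0 : 0 < η)
    (hεη : ε ≤ η / 2) (hη1 : η ≤ 1) (hP : P.IsEquipartition) (hPu : P.IsUniform H ε)
    (hparts : 4 / ε₁ ≤ (P.parts.card : ℝ)) (hκ₀ : 0 < κ₀)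
    (hbig : ∀ U ∈ P.parts, ∀ V ∈ P.parts,
      κ₀ * 2 ^ N ≤ (η / 2) * ((τ * (U.card : ℝ)) * (τ * V.card)))
    (hθ0 : 0 ≤ θ) (hθ : (4 * ε / (τ * η)) * N + 1 / 2 * √(N / κ₀) ≤ θ * N)
    (L : ℕ) (hL : 1 ≤ L) (hδ : 3 * (3 ^ (L + 2) * θ) ≤ δ) (𝒳 : Finset (Finset (Fin N))) :
    ∃ A : Finset α,
      (((Finset.univ.filter fun p : α × α => H.Adj p.1 p.2).card : ℝ) ≤
        ((Finset.univ.filter fun p : α × α => p.1 ∈ A ∧ p.2 ∈ A ∧ H.Adj p.1 p.2).card : ℝ) +
        (4 * ε + ε₁ / 2 + 4 * η + 2 / L) * (Fintype.card α : ℝ) ^ 2 +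
        ((Fintype.card α : ℝ) - A.card) ^ 2 / 2) ∧
      ((A.filter fun a => ∃ X ∈ 𝒳, ¬ Typ v δ X a).card : ℝ) ≤
        2 * τ * 𝒳.card * (Fintype.card α : ℝ) := by
  classical
  have hτ0 : 0 < τ := lt_of_lt_of_le hε hετ
  have hNr : (0 : ℝ) ≤ N := Nat.cast_nonneg N
  have hθN : 0 ≤ θ * N := le_trans (by positivity) hθ
  set R : ℕ → Finset (Finset α) := fun j => Rset H P ε η θ v j with hR
  have memR : ∀ j U, U ∈ R j ↔ U ∈ P.parts ∧ dev v U ≤ 3 ^ (j + 2) * θ * N ∧
      ∃ V, Good H P ε η U V := by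
    intro j U
    simp only [hR, Rset, Finset.mem_filter]
  -- profile estimate for good pairs
  have hpd : ∀ U V, Good H P ε η U V → pdev v U V ≤ θ * N := by
    rintro U V ⟨h1, h2, h3, h4, h5⟩
    refine (pair_lemma hUU (P.disjoint h1 h2 h3) hε hετ hτ1 hη0 hεη hη1 h4 h5
      (Finset.Subset.refl U) (Finset.Subset.refl V) ?_ ?_ hκ₀ (hbig U h1 V h2)).trans hθ
    · exact mul_le_of_le_one_left (Nat.cast_nonneg _) hτ1
    · exact mul_le_of_le_one_left (Nat.cast_nonneg _) hτ1
  -- neighbours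
  have hstep : ∀ j U V, U ∈ R j → Good H P ε η U V → V ∈ R (j + 1) := by
    intro j U V hU hUV
    rw [memR] at hU ⊢
    refine ⟨hUV.2.1, ?_, U, hUV.symm⟩
    have h1 := dev_adj v U V
    have h2 := hpd U V hUV
    have h3 : θ * N ≤ 3 ^ (j + 2) * θ * N := by
      have : (1 : ℝ) ≤ 3 ^ (j + 2) := one_le_pow₀ (by norm_num)
      rw [mul_assoc]
      exact le_mul_of_one_le_left hθN this
    have h4 : (3 : ℝ) ^ (j + 1 + 2) * θ * N = 3 * (3 ^ (j + 2) * θ * N) := by ring
    rw [h4]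
    linarith [hU.2.1]
  have hmono : ∀ j, R j ⊆ R (j + 1) := by
    intro j U hU
    rw [memR] at hU ⊢
    refine ⟨hU.1, hU.2.1.trans ?_, hU.2.2⟩
    have h4 : (3 : ℝ) ^ (j + 1 + 2) * θ * N = 3 * (3 ^ (j + 2) * (θ * N)) := by ring
    have h5 : (3 : ℝ) ^ (j + 2) * θ * N = 3 ^ (j + 2) * (θ * N) := by ring
    rw [h4, h5]
    have : 0 ≤ (3 : ℝ) ^ (j + 2) * (θ * N) := by positivity
    linarith
  have hmono0 : ∀ j, R 0 ⊆ R j := by
    intro j
    induction j with
    | zero => exact Finset.Subset.refl _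
    | succ k ih => exact ih.trans (hmono k)
  have htri : ∀ U V W, Good H P ε η U V → Good H P ε η U W → Good H P ε η V W → U ∈ R 0 := by
    intro U V W h1 h2 h3
    rw [memR]
    refine ⟨h1.1, ?_, V, h1⟩
    have h4 := dev_tri v U V W
    have h5 := hpd U V h1
    have h6 := hpd U W h2
    have h7 := hpd V W h3
    have h8 : (3 : ℝ) ^ (0 + 2) * θ * N = 9 * (θ * N) := by ring
    rw [h8]
    linarith
  set W : ℕ → Finset α := fun j => (R j).biUnion id with hW
  have memW : ∀ j a, a ∈ W j ↔ ∃ U ∈ R j, a ∈ U := by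
    intro j a
    simp only [hW, Finset.mem_biUnion, id]
  have hWmono : ∀ j, W j ⊆ W (j + 1) := by
    intro j a ha
    rw [memW] at ha ⊢
    obtain ⟨U, hU, haU⟩ := ha
    exact ⟨U, hmono j hU, haU⟩
  obtain ⟨j, hjL, hj⟩ := exists_small_step (fun j => ((W j).card : ℝ)) L hL
    (Fintype.card α : ℝ) (Nat.cast_nonneg _) (by exact_mod_cast Finset.card_le_univ (W L))
  set m : ℝ := (Fintype.card α : ℝ) with hm
  have hm0 : 0 ≤ m := Nat.cast_nonneg _
  have hLr : (0 : ℝ) < L := by exact_mod_cast hL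
  -- membership in parts is unique
  have huniq : ∀ (U V : Finset α) (a : α), U ∈ P.parts → V ∈ P.parts → a ∈ U → a ∈ V → U = V :=
    fun U V a hU hV h1 h2 => P.eq_of_mem_parts hU hV h1 h2
  have hinW : ∀ (i : ℕ) (U : Finset α) (a : α), U ∈ P.parts → a ∈ U → a ∈ W i → U ∈ R i := by
    intro i U a hU haU haW
    rw [memW] at haW
    obtain ⟨V, hV, haV⟩ := haW
    have hVp : V ∈ P.parts := ((memR i V).mp hV).1
    rw [huniq U V a hU hVp haU haV]
    exact hV
  refine ⟨W j, ?_, ?_⟩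
  · -- counting
    set K : SimpleGraph α :=
      { Adj := fun a b => (H.regularityReduced P ε η).Adj a b ∧ a ∉ W j ∧ b ∉ W j
        symm := ⟨fun a b h => ⟨h.1.symm, h.2.2, h.2.1⟩⟩
        loopless := ⟨fun a h => (H.regularityReduced P ε η).loopless.irrefl a h.1⟩ } with hK
    have hKtri : ∀ a b c, K.Adj a b → K.Adj a c → K.Adj b c → False := by
      rintro a b c ⟨⟨_, U, hU, V, hV, haU, hbV, hUV, hun1, hd1⟩, ha, _⟩
        ⟨⟨_, U', hU', Z, hZ, haU', hcZ, hUZ, hun2, hd2⟩, _⟩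
        ⟨⟨_, V', hV', Z', hZ', hbV', hcZ', hVZ, hun3, hd3⟩, _⟩
      have e1 : U' = U := huniq U' U a hU' hU haU' haU
      have e2 : V' = V := huniq V' V b hV' hV hbV' hbV
      have e3 : Z' = Z := huniq Z' Z c hZ' hZ hcZ' hcZ
      subst e1; subst e2; subst e3
      have hR0 := htri U' V' Z' ⟨hU, hV, hUV, hun1, hd1⟩ ⟨hU, hZ, hUZ, hun2, hd2⟩
        ⟨hV, hZ, hVZ, hun3, hd3⟩
      exact ha ((memW j a).mpr ⟨U', hmono0 j hR0, haU⟩)
    have hmantel := mantel_on K (Finset.univ \ W j)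
      (fun a b h => by simp only [Finset.mem_sdiff, Finset.mem_univ, true_and]; exact h.2.1) hKtri
    have hBcard : ((Finset.univ \ W j).card : ℝ) = m - (W j).card := by
      rw [Finset.card_sdiff_of_subset (Finset.subset_univ _), Finset.card_univ,
        Nat.cast_sub (by exact Finset.card_le_univ _)]
    rw [hBcard] at hmantel
    have hunr := unreduced_card H P hε hε₁ hη0.le hP hPu hparts
    set F0 := (Finset.univ.filter fun p : α × α => H.Adj p.1 p.2) with hF0
    set F1 := (Finset.univ.filter fun p : α × α =>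
      H.Adj p.1 p.2 ∧ ¬ (H.regularityReduced P ε η).Adj p.1 p.2) with hF1
    set F2 := (Finset.univ.filter fun p : α × α => p.1 ∈ W j ∧ p.2 ∈ W j ∧ H.Adj p.1 p.2) with hF2
    set F3 := (Finset.univ.filter fun p : α × α => K.Adj p.1 p.2) with hF3
    set D := W (j + 1) \ W j with hD
    have hDcard : (D.card : ℝ) ≤ m / L := by
      rw [hD, Finset.card_sdiff_of_subset (hWmono j), Nat.cast_sub (Finset.card_le_card (hWmono j))]
      exact hj
    have hcross : ∀ a b, (H.regularityReduced P ε η).Adj a b → a ∈ W j → b ∉ W j → b ∈ D := by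
      rintro a b ⟨_, U, hU, V, hV, haU, hbV, hUV, hun, hd⟩ ha hb
      have hUR := hinW j U a hU haU ha
      have hVR := hstep j U V hUR ⟨hU, hV, hUV, hun, hd⟩
      rw [hD, Finset.mem_sdiff]
      exact ⟨(memW (j + 1) b).mpr ⟨V, hVR, hbV⟩, hb⟩
    have hsub : F0 ⊆ F1 ∪ F2 ∪ F3 ∪ (Finset.univ ×ˢ D) ∪ (D ×ˢ Finset.univ) := by
      rintro ⟨a, b⟩ hab
      have hH : H.Adj a b := (Finset.mem_filter.mp hab).2
      simp only [Finset.mem_union]
      by_cases hred : (H.regularityReduced P ε η).Adj a b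
      · by_cases ha : a ∈ W j
        · by_cases hb : b ∈ W j
          · left; left; left; right
            exact Finset.mem_filter.mpr ⟨Finset.mem_univ _, ha, hb, hH⟩
          · left; right
            exact Finset.mem_product.mpr ⟨Finset.mem_univ _, hcross a b hred ha hb⟩
        · by_cases hb : b ∈ W j
          · right
            exact Finset.mem_product.mpr ⟨hcross b a hred.symm hb ha, Finset.mem_univ _⟩
          · left; left; right
            exact Finset.mem_filter.mpr ⟨Finset.mem_univ _, hred, ha, hb⟩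
      · left; left; left; left
        exact Finset.mem_filter.mpr ⟨Finset.mem_univ _, hH, hred⟩
    have hc := Finset.card_le_card hsub
    have hc2 : F0.card ≤ F1.card + F2.card + F3.card + Fintype.card α * D.card +
        D.card * Fintype.card α := by
      refine hc.trans ((Finset.card_union_le _ _).trans ?_)
      have h1 : (D ×ˢ (Finset.univ : Finset α)).card = D.card * Fintype.card α := by
        rw [Finset.card_product, Finset.card_univ]
      have h2 : ((Finset.univ : Finset α) ×ˢ D).card = Fintype.card α * D.card := by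
        rw [Finset.card_product, Finset.card_univ]
      have h3 := Finset.card_union_le (F1 ∪ F2 ∪ F3) ((Finset.univ : Finset α) ×ˢ D)
      have h4 := Finset.card_union_le (F1 ∪ F2) F3
      have h5 := Finset.card_union_le F1 F2
      omega
    have hc3 : (F0.card : ℝ) ≤ F1.card + F2.card + F3.card + m * D.card + D.card * m := by
      have : (F0.card : ℝ) ≤ ((F1.card + F2.card + F3.card + Fintype.card α * D.card +
        D.card * Fintype.card α : ℕ) : ℝ) := by exact_mod_cast hc2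
      push_cast at this
      exact this
    have hc4 : m * D.card + D.card * m ≤ 2 / L * m ^ 2 := by
      have : m * (D.card : ℝ) ≤ m * (m / L) := mul_le_mul_of_nonneg_left hDcard hm0
      have e : m * (m / L) + m * (m / L) = 2 / L * m ^ 2 := by ring
      nlinarith
    have hmantel' : (F3.card : ℝ) ≤ (m - (W j).card) ^ 2 / 2 := by
      convert hmantel using 3
    have : (4 * ε + ε₁ / 2 + 4 * η + 2 / L) * m ^ 2 =
        (4 * ε + ε₁ / 2 + 4 * η) * m ^ 2 + 2 / L * m ^ 2 := by ring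
    rw [this]
    linarith
  · -- typical members
    have hpart : ∀ U ∈ R j, ∀ X ∈ 𝒳,
        ((U.filter fun a => ¬ Typ v δ X a).card : ℝ) ≤ 2 * τ * U.card := by
      intro U hU X _
      obtain ⟨hUp, hUd, V, hUV⟩ := (memR j U).mp hU
      have hV := hstep j U V hU hUV
      obtain ⟨hVp, hVd, _⟩ := (memR (j + 1) V).mp hV
      have hle : θ * N ≤ 3 ^ (j + 1 + 2) * θ * N := by
        have : (1 : ℝ) ≤ 3 ^ (j + 1 + 2) := one_le_pow₀ (by norm_num)
        rw [mul_assoc]
        exact le_mul_of_one_le_left hθN this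
      refine typical hUU (P.disjoint hUp hVp hUV.2.2.1) hε hετ hτ1 hη0 hεη hη1 hUV.2.2.2.1
        hUV.2.2.2.2 hκ₀ (hbig U hUp V hVp) (hθ.trans hle) hVd ?_ X
      refine le_trans ?_ hδ
      have : (3 : ℝ) ^ (j + 1 + 2) ≤ 3 ^ (L + 2) := pow_le_pow_right₀ (by norm_num) (by omega)
      have := mul_le_mul_of_nonneg_right this hθ0
      linarith
    have hsub : (W j).filter (fun a => ∃ X ∈ 𝒳, ¬ Typ v δ X a) ⊆
        (R j).biUnion fun U => 𝒳.biUnion fun X => U.filter fun a => ¬ Typ v δ X a := by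
      intro a ha
      rw [Finset.mem_filter] at ha
      obtain ⟨haW, X, hX, haX⟩ := ha
      obtain ⟨U, hU, haU⟩ := (memW j a).mp haW
      rw [Finset.mem_biUnion]
      refine ⟨U, hU, Finset.mem_biUnion.mpr ⟨X, hX, Finset.mem_filter.mpr ⟨haU, haX⟩⟩⟩
    have h1 : (((W j).filter (fun a => ∃ X ∈ 𝒳, ¬ Typ v δ X a)).card : ℝ) ≤
        ∑ U ∈ R j, ∑ X ∈ 𝒳, ((U.filter fun a => ¬ Typ v δ X a).card : ℝ) := by
      have h2 := (Finset.card_le_card hsub).trans (Finset.card_biUnion_le)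
      have h3 : ∑ U ∈ R j, (𝒳.biUnion fun X => U.filter fun a => ¬ Typ v δ X a).card ≤
          ∑ U ∈ R j, ∑ X ∈ 𝒳, (U.filter fun a => ¬ Typ v δ X a).card :=
        Finset.sum_le_sum fun U _ => Finset.card_biUnion_le
      exact_mod_cast h2.trans h3
    have h2 : ∑ U ∈ R j, ∑ X ∈ 𝒳, ((U.filter fun a => ¬ Typ v δ X a).card : ℝ) ≤
        ∑ U ∈ R j, 2 * τ * 𝒳.card * U.card := by
      refine Finset.sum_le_sum fun U hU => ?_
      calc ∑ X ∈ 𝒳, ((U.filter fun a => ¬ Typ v δ X a).card : ℝ) ≤ ∑ _X ∈ 𝒳, 2 * τ * U.card :=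
            Finset.sum_le_sum fun X hX => hpart U hU X hX
        _ = 2 * τ * 𝒳.card * U.card := by rw [Finset.sum_const, nsmul_eq_mul]; ring
    have h3 : ∑ U ∈ R j, (2 * τ * 𝒳.card * U.card : ℝ) ≤ 2 * τ * 𝒳.card * m := by
      rw [← Finset.mul_sum]
      refine mul_le_mul_of_nonneg_left ?_ (by positivity)
      have h4 : ∑ U ∈ R j, U.card = (W j).card := by
        rw [hW]
        symm
        refine Finset.card_biUnion ?_
        intro U hU V hV hUV
        exact P.disjoint ((memR j U).mp hU).1 ((memR j V).mp hV).1 hUV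
      have h5 : (∑ U ∈ R j, (U.card : ℝ)) = ((W j).card : ℝ) := by exact_mod_cast h4
      rw [h5, hm]
      exact_mod_cast Finset.card_le_univ (W j)
    exact h1.trans (h2.trans h3)

end EM
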